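import Pool.Agent.H4.SG.Al
import Pool.Graph.R_pool_sql_team_seeded_2aa45f1a.Q32.Idx.Comb

set_option autoImplicit false

/-! Indices of the odd real points of a symmetric finite multiset, relative to a set of indices without two consecutive elements. -/

open scoped BigOperators ComplexConjugate

namespace Pool.Agent.H4.IX

open Pool.Agent.Q32.Idx (cnt cnt_zero cnt_succ cnt_add cnt_even cnt_le NoCons)
open Pool.Agent.H4.SG (cnl)

/-- twice the number of the elements of `A` up to `n`, minus `n` -/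
noncomputable def GA (A : Set ℕ) (n : ℕ) : ℝ := 2 * (cnt A 0 n : ℝ) - n

lemma GA_sub {A : Set ℕ} (p k : ℕ) : GA A (p + k) - GA A p = 2 * (cnt A p k : ℝ) - k := by
  unfold GA
  rw [cnt_add, zero_add]
  push_cast
  ring

lemma GA_even {A : Set ℕ} (hA : NoCons A) {p q : ℕ} (h : p ≤ q) (he : Even (q - p)) : GA A q - GA A p ≤ 0 := by
  obtain ⟨j, hj⟩ := he
  have e : q = p + 2 * j := by omega
  rw [e, GA_sub]
  have h1 : (cnt A p (2 * j) : ℝ) ≤ j := by exact_mod_cast cnt_even hA p j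
  push_cast
  linarith

lemma GA_odd {A : Set ℕ} (hA : NoCons A) {p q : ℕ} (h : p ≤ q) : GA A q - GA A p ≤ 1 := by
  obtain ⟨k, rfl⟩ := Nat.exists_eq_add_of_le h
  rw [GA_sub]
  have h1 : (2 : ℝ) * (cnt A p k : ℝ) ≤ k + 1 := by exact_mod_cast cnt_le hA p k
  linarith

open Classical in
lemma GA_one {A : Set ℕ} (n : ℕ) : GA A (n + 1) - GA A n = 2 * (if n + 1 ∈ A then (1 : ℝ) else 0) - 1 := by
  unfold GA
  rw [cnt_succ, zero_add]
  push_cast
  split_ifs <;> ring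

/-- the last value of `f` before `x` -/
noncomputable def pv (R : Finset ℝ) (f : ℝ → ℕ) (n₁ : ℕ) (x : ℝ) : ℕ := max n₁ ((R.filter (· < x)).sup f)

/-- telescoping -/
lemma tele (R : Finset ℝ) (f : ℝ → ℕ) (n₁ : ℕ) (G : ℕ → ℝ) (hf : ∀ x ∈ R, ∀ y ∈ R, x ≤ y → f x ≤ f y) (hn : ∀ x ∈ R, n₁ ≤ f x) :
    ∑ x ∈ R, (G (f x) - G (pv R f n₁ x)) = G (max n₁ (R.sup f)) - G n₁ := by
  induction R using Finset.induction_on_max with
  | empty => simp
  | insert a R ha ih =>
    have han : a ∉ R := fun h => lt_irrefl a (ha a h)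
    rw [Finset.sum_insert han]
    have h1 : (insert a R).filter (· < a) = R := by
      ext x
      rw [Finset.mem_filter, Finset.mem_insert]
      constructor
      · rintro ⟨h | h, h2⟩
        · rw [h] at h2; exact absurd h2 (lt_irrefl _)
        · exact h
      · intro h; exact ⟨Or.inr h, ha x h⟩
    have h2 : ∀ x ∈ R, (insert a R).filter (· < x) = R.filter (· < x) := by
      intro x hx
      ext y
      rw [Finset.mem_filter, Finset.mem_filter, Finset.mem_insert]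
      constructor
      · rintro ⟨h | h, h3⟩
        · rw [h] at h3; exact absurd (ha x hx) (lt_asymm h3)
        · exact ⟨h, h3⟩
      · rintro ⟨h, h3⟩; exact ⟨Or.inr h, h3⟩
    have h3 : ∑ x ∈ R, (G (f x) - G (pv (insert a R) f n₁ x)) = ∑ x ∈ R, (G (f x) - G (pv R f n₁ x)) := by
      refine Finset.sum_congr rfl fun x hx => ?_
      unfold pv
      rw [h2 x hx]
    rw [h3, ih (fun x hx y hy => hf x (Finset.mem_insert_of_mem hx) y (Finset.mem_insert_of_mem hy))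
      (fun x hx => hn x (Finset.mem_insert_of_mem hx))]
    have h4 : max n₁ ((insert a R).sup f) = f a := by
      rw [Finset.sup_insert]
      have h5 : R.sup f ≤ f a := Finset.sup_le fun x hx => hf x (Finset.mem_insert_of_mem hx) a (Finset.mem_insert_self _ _) (ha x hx).le
      have h6 := hn a (Finset.mem_insert_self _ _)
      rw [max_eq_left (a := f a) h5]
      exact max_eq_right h6
    have h7 : pv (insert a R) f n₁ a = max n₁ (R.sup f) := by
      unfold pv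
      rw [h1]
    rw [h4, h7]
    ring

open Classical in
/-- the points off the real line contribute an even number -/
lemma par_gen {Z : Finset ℂ} {m : ℂ → ℕ} (hZ : ∀ z ∈ Z, conj z ∈ Z) (hmc : ∀ z ∈ Z, m (conj z) = m z) (p : ℝ → Prop) :
    ((∑ w ∈ Z.filter (fun w => p w.re), m w : ℕ) : ZMod 2) = ((∑ w ∈ Z.filter (fun w => p w.re ∧ w.im = 0), m w : ℕ) : ZMod 2) := by
  push_cast
  rw [← Finset.sum_filter_add_sum_filter_not _ (fun w : ℂ => w.im = 0)]
  have h3 : ∑ w ∈ (Z.filter (fun w => p w.re)).filter (fun w : ℂ => ¬ w.im = 0), ((m w : ℕ) : ZMod 2) = 0 := by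
    refine Finset.sum_involution (fun w _ => conj w) ?_ ?_ ?_ ?_
    · intro w hw
      rw [Finset.mem_filter, Finset.mem_filter] at hw
      rw [hmc w hw.1.1, ← two_mul]
      have : (2 : ZMod 2) = 0 := by decide
      rw [this, zero_mul]
    · intro w hw _ h
      rw [Finset.mem_filter] at hw
      exact hw.2 (Complex.conj_eq_iff_im.1 h)
    · intro w hw
      rw [Finset.mem_filter, Finset.mem_filter] at hw ⊢
      refine ⟨⟨hZ w hw.1.1, by simpa using hw.1.2⟩, ?_⟩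
      rw [Complex.conj_im]
      intro h
      exact hw.2 (neg_eq_zero.1 h)
    · intro w _
      exact Complex.conj_conj w
  rw [h3, add_zero, Finset.filter_filter]

open Classical in
/-- counting up to `x` -/
lemma cnl_diff {Z : Finset ℂ} {m : ℂ → ℕ} {x y : ℝ} (h : x ≤ y) :
    cnl Z m y = cnl Z m x + ∑ w ∈ Z.filter (fun w => x < w.re ∧ w.re ≤ y), m w := by
  unfold cnl
  rw [← Finset.sum_union]
  · refine Finset.sum_congr ?_ fun _ _ => rfl
    ext w
    simp only [Finset.mem_filter, Finset.mem_union]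
    constructor
    · rintro ⟨g1, g2⟩
      rcases le_or_gt w.re x with g3 | g3
      · exact Or.inl ⟨g1, g3⟩
      · exact Or.inr ⟨g1, g3, g2⟩
    · rintro (⟨g1, g2⟩ | ⟨g1, g2, g3⟩)
      · exact ⟨g1, g2.trans h⟩
      · exact ⟨g1, g3⟩
  · rw [Finset.disjoint_left]
    intro w hw hw2
    rw [Finset.mem_filter] at hw hw2
    linarith [hw.2, hw2.2.1]

section

open Classical in
/-- the odd real points -/
noncomputable def OR (Z : Finset ℂ) (m : ℂ → ℕ) : Finset ℂ := Z.filter (fun z => z.im = 0 ∧ Odd (m z))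

lemma mem_OR {Z : Finset ℂ} {m : ℂ → ℕ} {z : ℂ} : z ∈ OR Z m ↔ z ∈ Z ∧ z.im = 0 ∧ Odd (m z) := by
  unfold OR
  rw [Finset.mem_filter]

/-- their abscissas -/
noncomputable def RR (Z : Finset ℂ) (m : ℂ → ℕ) : Finset ℝ := (OR Z m).image (fun z => z.re)

lemma mem_RR {Z : Finset ℂ} {m : ℂ → ℕ} {x : ℝ} : x ∈ RR Z m ↔ ∃ z ∈ Z, z.im = 0 ∧ Odd (m z) ∧ z.re = x := by
  unfold RR
  rw [Finset.mem_image]
  constructor
  · rintro ⟨z, hz, h⟩
    rw [mem_OR] at hz
    exact ⟨z, hz.1, hz.2.1, hz.2.2, h⟩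
  · rintro ⟨z, h1, h2, h3, h4⟩
    exact ⟨z, mem_OR.2 ⟨h1, h2, h3⟩, h4⟩

variable {Z : Finset ℂ} {m : ℂ → ℕ} (hZ : ∀ z ∈ Z, conj z ∈ Z) (hmc : ∀ z ∈ Z, m (conj z) = m z)

include hZ hmc in
open Classical in
/-- an interval with one odd real point -/
lemma odd_one {y : ℂ} (hy : y ∈ Z) (hy0 : y.im = 0) (hyo : Odd (m y)) (p : ℝ → Prop) (hp : p y.re)
    (hb : ∀ w ∈ Z, w.im = 0 → p w.re → w.re ≠ y.re → Even (m w)) :
    Odd (∑ w ∈ Z.filter (fun w => p w.re), m w) := by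
  rw [← ZMod.natCast_eq_one_iff_odd, par_gen hZ hmc p]
  push_cast
  rw [Finset.sum_eq_single y]
  · exact (ZMod.natCast_eq_one_iff_odd).2 hyo
  · intro w hw hwy
    rw [Finset.mem_filter] at hw
    obtain ⟨g1, g2, g4⟩ := hw
    have g5 : w.re ≠ y.re := fun h => hwy (Complex.ext h (g4.trans hy0.symm))
    exact (ZMod.natCast_eq_zero_iff_even).2 (hb w g1 g4 g2 g5)
  · intro h
    exact absurd (Finset.mem_filter.2 ⟨hy, hp, hy0⟩) h

include hZ hmc in
open Classical in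
/-- an interval without odd real points -/
lemma even_none (p : ℝ → Prop) (hb : ∀ w ∈ Z, w.im = 0 → p w.re → Even (m w)) :
    Even (∑ w ∈ Z.filter (fun w => p w.re), m w) := by
  rw [← ZMod.natCast_eq_zero_iff_even, par_gen hZ hmc p]
  push_cast
  refine Finset.sum_eq_zero fun w hw => ?_
  rw [Finset.mem_filter] at hw
  exact (ZMod.natCast_eq_zero_iff_even).2 (hb w hw.1 hw.2.2 hw.2.1)

/-- the index function -/
noncomputable def ix (Z : Finset ℂ) (m : ℂ → ℕ) (n₁ : ℕ) (x : ℝ) : ℕ := n₁ + cnl Z m x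

lemma ix_mono (Z : Finset ℂ) (m : ℂ → ℕ) (n₁ : ℕ) {x y : ℝ} (h : x ≤ y) : ix Z m n₁ x ≤ ix Z m n₁ y := by
  unfold ix
  rw [cnl_diff h]
  omega

/-- previous value -/
lemma pv_cases (n₁ : ℕ) (x : ℝ) :
    (pv (RR Z m) (ix Z m n₁) n₁ x = n₁ ∧ ∀ y ∈ RR Z m, ¬ y < x) ∨
    ∃ y ∈ RR Z m, y < x ∧ (∀ w ∈ RR Z m, w < x → w ≤ y) ∧ pv (RR Z m) (ix Z m n₁) n₁ x = ix Z m n₁ y := by
  unfold pv
  set R' := (RR Z m).filter (· < x) with hR'
  rcases R'.eq_empty_or_nonempty with h | h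
  · left
    refine ⟨by rw [h]; simp, fun y hy hyx => ?_⟩
    have : y ∈ R' := Finset.mem_filter.2 ⟨hy, hyx⟩
    rw [h] at this
    exact absurd this (Finset.notMem_empty _)
  · right
    have hy := R'.max'_mem h
    set y := R'.max' h with hyd
    rw [hR', Finset.mem_filter] at hy
    refine ⟨y, hy.1, hy.2, fun w hw hwx => R'.le_max' w (Finset.mem_filter.2 ⟨hw, hwx⟩), ?_⟩
    have h1 : R'.sup (ix Z m n₁) = ix Z m n₁ y := by
      refine le_antisymm (Finset.sup_le fun w hw => ix_mono Z m n₁ (R'.le_max' w hw)) ?_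
      exact Finset.le_sup (f := ix Z m n₁) (R'.max'_mem h)
    rw [h1]
    refine max_eq_right ?_
    unfold ix
    omega

include hZ hmc in
open Classical in
/-- the steps are odd -/
lemma pv_odd (n₁ : ℕ) {z : ℂ} (hz : z ∈ OR Z m) :
    pv (RR Z m) (ix Z m n₁) n₁ z.re ≤ ix Z m n₁ z.re ∧ Odd (ix Z m n₁ z.re - pv (RR Z m) (ix Z m n₁) n₁ z.re) := by
  rw [mem_OR] at hz
  rcases pv_cases (Z := Z) (m := m) n₁ z.re with ⟨h1, h2⟩ | ⟨y, hy, hyz, hmax, h1⟩
  · rw [h1]
    unfold ix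
    refine ⟨by omega, ?_⟩
    rw [Nat.add_sub_cancel_left]
    unfold cnl
    refine odd_one hZ hmc hz.1 hz.2.1 hz.2.2 (fun u => u ≤ z.re) le_rfl fun w hw hw0 hp hne => ?_
    by_contra hodd
    rw [Nat.not_even_iff_odd] at hodd
    exact h2 w.re (mem_RR.2 ⟨w, hw, hw0, hodd, rfl⟩) (lt_of_le_of_ne hp hne)
  · rw [h1]
    refine ⟨ix_mono Z m n₁ hyz.le, ?_⟩
    unfold ix
    rw [cnl_diff (Z := Z) (m := m) hyz.le]
    have e : n₁ + (cnl Z m y + ∑ w ∈ Z.filter (fun w => y < w.re ∧ w.re ≤ z.re), m w) - (n₁ + cnl Z m y) =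
        ∑ w ∈ Z.filter (fun w => y < w.re ∧ w.re ≤ z.re), m w := by omega
    rw [e]
    have h5 := odd_one hZ hmc hz.1 hz.2.1 hz.2.2 (fun u => y < u ∧ u ≤ z.re) ⟨hyz, le_rfl⟩ fun w hw hw0 hp hne => by
      by_contra hodd
      rw [Nat.not_even_iff_odd] at hodd
      exact absurd (hmax w.re (mem_RR.2 ⟨w, hw, hw0, hodd, rfl⟩) (lt_of_le_of_ne hp.2 hne)) (not_le.2 hp.1)
    convert h5

/-- the gain at an odd real point -/
noncomputable def et (A : Set ℕ) (Z : Finset ℂ) (m : ℂ → ℕ) (n₁ : ℕ) (x : ℝ) : ℝ :=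
  GA A (ix Z m n₁ x) - GA A (pv (RR Z m) (ix Z m n₁) n₁ x)

include hZ hmc in
lemma et_le {A : Set ℕ} (hA : NoCons A) (n₁ : ℕ) {z : ℂ} (hz : z ∈ OR Z m) : et A Z m n₁ z.re ≤ 1 :=
  GA_odd hA (pv_odd hZ hmc n₁ hz).1

include hZ hmc in
open Classical in
lemma et_flag {A : Set ℕ} (hA : NoCons A) (n₁ : ℕ) {z : ℂ} (hz : z ∈ OR Z m) :
    et A Z m n₁ z.re ≤ 2 * (if ix Z m n₁ z.re ∈ A then (1 : ℝ) else 0) - 1 := by
  obtain ⟨h1, j, h2⟩ := pv_odd hZ hmc n₁ hz
  unfold et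
  set q := ix Z m n₁ z.re with hq
  set p := pv (RR Z m) (ix Z m n₁) n₁ z.re with hp
  obtain ⟨q', hq'⟩ : ∃ q', q = q' + 1 := ⟨q - 1, by omega⟩
  have h3 := GA_one (A := A) q'
  have h4 := GA_even hA (p := p) (q := q') (by omega) ⟨j, by omega⟩
  rw [hq']
  linarith

include hZ hmc in
/-- two consecutive odd real points -/
lemma et_two {A : Set ℕ} (hA : NoCons A) (n₁ : ℕ) {x y : ℂ} (hx : x ∈ OR Z m) (hy : y ∈ OR Z m) (hxy : x.re < y.re)
    (hb : ∀ w ∈ OR Z m, ¬ (x.re < w.re ∧ w.re < y.re)) : et A Z m n₁ x.re + et A Z m n₁ y.re ≤ 0 := by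
  have h1 : pv (RR Z m) (ix Z m n₁) n₁ y.re = ix Z m n₁ x.re := by
    rcases pv_cases (Z := Z) (m := m) n₁ y.re with ⟨-, h2⟩ | ⟨u, hu, huy, hmax, h1⟩
    · have := mem_OR.1 hx
      exact absurd hxy (h2 x.re (mem_RR.2 ⟨x, this.1, this.2.1, this.2.2, rfl⟩))
    · rw [h1]
      have h3 := mem_OR.1 hx
      have h2 := hmax x.re (mem_RR.2 ⟨x, h3.1, h3.2.1, h3.2.2, rfl⟩) hxy
      obtain ⟨w, hw, hw0, hwo, rfl⟩ := mem_RR.1 hu
      rcases h2.eq_or_lt with h4 | h4
      · rw [h4]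
      · exact absurd ⟨h4, huy⟩ (hb w (mem_OR.2 ⟨hw, hw0, hwo⟩))
  obtain ⟨a1, i, a2⟩ := pv_odd hZ hmc n₁ hx
  obtain ⟨b1, j, b2⟩ := pv_odd hZ hmc n₁ hy
  unfold et
  rw [h1] at b1 b2 ⊢
  have h4 := GA_even hA (p := pv (RR Z m) (ix Z m n₁) n₁ x.re) (q := ix Z m n₁ y.re) (a1.trans b1) ⟨i + j + 1, by omega⟩
  linarith

include hZ hmc in
open Classical in
/-- the total -/
lemma et_sum {A : Set ℕ} (hA : NoCons A) (n₁ : ℕ) :
    2 * (cnt A n₁ (∑ z ∈ Z, m z) : ℝ) - ((∑ z ∈ Z, m z : ℕ) : ℝ) ≤ ∑ z ∈ OR Z m, et A Z m n₁ z.re := by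
  have h1 : ∑ z ∈ OR Z m, et A Z m n₁ z.re = ∑ x ∈ RR Z m, et A Z m n₁ x := by
    unfold RR
    rw [Finset.sum_image]
    intro z hz w hw hzw
    have hz' := (mem_OR.1 (Finset.mem_coe.1 hz)).2.1
    have hw' := (mem_OR.1 (Finset.mem_coe.1 hw)).2.1
    exact Complex.ext hzw (hz'.trans hw'.symm)
  rw [h1]
  have h2 := tele (RR Z m) (ix Z m n₁) n₁ (GA A) (fun x _ y _ h => ix_mono Z m n₁ h) (fun x _ => by unfold ix; omega)
  have h3 : ∑ x ∈ RR Z m, et A Z m n₁ x = GA A (max n₁ ((RR Z m).sup (ix Z m n₁))) - GA A n₁ := h2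
  rw [h3, ← GA_sub n₁ (∑ z ∈ Z, m z)]
  have h4 : GA A (n₁ + ∑ z ∈ Z, m z) - GA A (max n₁ ((RR Z m).sup (ix Z m n₁))) ≤ 0 := by
    rcases (RR Z m).eq_empty_or_nonempty with h | h
    · rw [h, Finset.sup_empty]
      have e : max n₁ (⊥ : ℕ) = n₁ := by simp
      rw [e]
      refine GA_even hA (by omega) ?_
      rw [Nat.add_sub_cancel_left]
      have h5 := even_none hZ hmc (fun _ => True) fun w hw hw0 _ => by
        by_contra hodd
        rw [Nat.not_even_iff_odd] at hodd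
        have : w.re ∈ RR Z m := mem_RR.2 ⟨w, hw, hw0, hodd, rfl⟩
        rw [h] at this
        exact Finset.notMem_empty _ this
      rwa [Finset.filter_true] at h5
    · set y := (RR Z m).max' h with hy
      have hyR := (RR Z m).max'_mem h
      have h5 : (RR Z m).sup (ix Z m n₁) = ix Z m n₁ y := by
        refine le_antisymm (Finset.sup_le fun w hw => ix_mono Z m n₁ ((RR Z m).le_max' w hw)) ?_
        exact Finset.le_sup (f := ix Z m n₁) hyR
      have h6 : max n₁ ((RR Z m).sup (ix Z m n₁)) = ix Z m n₁ y := by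
        rw [h5]
        refine max_eq_right ?_
        unfold ix
        omega
      rw [h6]
      have h7 : ∑ z ∈ Z, m z = cnl Z m y + ∑ w ∈ Z.filter (fun w => y < w.re), m w := by
        unfold cnl
        rw [← Finset.sum_filter_add_sum_filter_not Z (fun w => w.re ≤ y)]
        simp only [not_le]
      have h8 := even_none hZ hmc (fun u => y < u) fun w hw hw0 hp => by
        by_contra hodd
        rw [Nat.not_even_iff_odd] at hodd
        have := (RR Z m).le_max' w.re (mem_RR.2 ⟨w, hw, hw0, hodd, rfl⟩)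
        linarith
      refine GA_even hA ?_ ?_
      · unfold ix
        rw [h7]
        omega
      · unfold ix
        rw [h7]
        have e : n₁ + (cnl Z m y + ∑ w ∈ Z.filter (fun w => y < w.re), m w) - (n₁ + cnl Z m y) =
            ∑ w ∈ Z.filter (fun w => y < w.re), m w := by omega
        rw [e]
        exact h8
  linarith

end

end Pool.Agent.H4.IX
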