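import Pool.Graph.R_pool_sql_team_seeded_3997aac3.Q97.UM.Stm11
import Pool.Graph.R_pool_sql_team_seeded_2aa45f1a.Q32.Idx.Asm
import Pool.Agent.H4.IX.Ac

set_option autoImplicit false

/-! Levels of zeros with the same ordinate, and the indices of a window. -/

namespace Pool.Agent.H4.IX

open Pool.Agent.Q97.UM
open Pool.Agent.Q32.Idx (cnt cnt_zero cnt_add NoCons N N_eq N_split mult mem_Zf)

noncomputable section

/-- counting over levels -/
lemma cnt_fin (A : Set ℕ) (n₁ : ℕ) (M : ℝ → ℕ) (G : Finset ℝ) :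
    cnt A n₁ (∑ g ∈ G, M g) = ∑ g ∈ G, cnt A (n₁ + ∑ x ∈ G.filter (· < g), M x) (M g) := by
  classical
  induction G using Finset.induction_on_max with
  | empty => simp [cnt_zero]
  | insert g G hg ih =>
    have hgn : g ∉ G := fun h => lt_irrefl _ (hg g h)
    rw [Finset.sum_insert hgn, Finset.sum_insert hgn, add_comm (M g), cnt_add, ih, add_comm]
    congr 1
    · have : (insert g G).filter (· < g) = G := by
        ext x
        rw [Finset.mem_filter, Finset.mem_insert]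
        constructor
        · rintro ⟨h | h, h2⟩
          · rw [h] at h2; exact absurd h2 (lt_irrefl _)
          · exact h
        · intro h; exact ⟨Or.inr h, hg x h⟩
      rw [this]
    · refine Finset.sum_congr rfl fun x hx => ?_
      have : (insert g G).filter (· < x) = G.filter (· < x) := by
        ext y
        rw [Finset.mem_filter, Finset.mem_filter, Finset.mem_insert]
        constructor
        · rintro ⟨h | h, h3⟩
          · rw [h] at h3; exact absurd (hg x hx) (lt_asymm h3)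
          · exact ⟨h, h3⟩
        · rintro ⟨h, h3⟩; exact ⟨Or.inr h, h3⟩
      rw [this]

open Classical in
/-- the zeros with ordinate `g` -/
def lev (g : ℝ) : Finset ℂ := (Pool.Agent.Q32.Idx.Zf (g - 1) g).filter (fun s => s.im = g)

lemma mem_lev {g : ℝ} {s : ℂ} : s ∈ lev g ↔ riemannZeta s = 0 ∧ 0 < s.re ∧ s.re < 1 ∧ s.im = g := by
  unfold lev
  rw [Finset.mem_filter, mem_Zf]
  constructor
  · rintro ⟨⟨h1, h2, h3, h4, h5⟩, h6⟩
    exact ⟨h1, h2, h3, h6⟩
  · rintro ⟨h1, h2, h3, h6⟩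
    exact ⟨⟨h1, h2, h3, by linarith, h6.le⟩, h6⟩

/-- their number -/
def Mg (g : ℝ) : ℕ := ∑ s ∈ lev g, mz s

/-- the number of the zeros with ordinate in `(0, g)` -/
def Nl (g : ℝ) : ℕ := N 0 g - Mg g

open Classical in
lemma N_Nl {g : ℝ} (hg : 0 < g) : N 0 g = Nl g + Mg g := by
  have h : Mg g ≤ N 0 g := by
    rw [N_eq]
    unfold Mg
    refine Finset.sum_le_sum_of_subset (f := mult) fun s hs => ?_
    rw [mem_lev] at hs
    rw [mem_Zf]
    exact ⟨hs.1, hs.2.1, hs.2.2.1, by rw [hs.2.2.2]; exact hg, hs.2.2.2.le⟩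
  unfold Nl
  omega

open Classical in
lemma Nl_eq {g : ℝ} (hg : 0 < g) : Nl g = ∑ s ∈ (Pool.Agent.Q32.Idx.Zf 0 g).filter (fun s => s.im < g), mz s := by
  have h1 := N_Nl hg
  have h2 : N 0 g = ∑ s ∈ (Pool.Agent.Q32.Idx.Zf 0 g).filter (fun s => s.im < g), mz s + Mg g := by
    rw [N_eq, ← Finset.sum_filter_add_sum_filter_not _ (fun s => s.im < g)]
    congr 1
    unfold Mg
    refine Finset.sum_congr ?_ fun _ _ => rfl
    ext s
    rw [Finset.mem_filter, mem_lev, mem_Zf]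
    constructor
    · rintro ⟨⟨a1, a2, a3, a4, a5⟩, a6⟩
      exact ⟨a1, a2, a3, le_antisymm a5 (not_lt.1 a6)⟩
    · rintro ⟨a1, a2, a3, a4⟩
      exact ⟨⟨a1, a2, a3, by rw [a4]; exact hg, a4.le⟩, by rw [a4]; exact lt_irrefl _⟩
  omega

open Classical in
/-- the indices in a window -/
lemma N_win {a b g : ℝ} (ha : 0 < a) (hag : a ≤ g) (hgb : g ≤ b) (F : Finset ℂ)
    (hF : ∀ s, s ∈ F ↔ riemannZeta s = 0 ∧ 0 < s.re ∧ s.re < 1 ∧ a ≤ s.im ∧ s.im ≤ b) :
    N 0 g = Nl a + ∑ s ∈ F.filter (fun s => s.im ≤ g), mz s ∧ Nl g = Nl a + ∑ s ∈ F.filter (fun s => s.im < g), mz s := by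
  have e0 : ∀ p : ℝ → Prop, (∀ x, p x → x ≤ g) → (∀ x, x < a → p x) →
      ∑ s ∈ (Pool.Agent.Q32.Idx.Zf 0 g).filter (fun s => p s.im), mz s = Nl a + ∑ s ∈ F.filter (fun s => p s.im), mz s := by
    intro p hp1 hp2
    rw [Nl_eq ha, ← Finset.sum_union]
    · refine Finset.sum_congr ?_ fun _ _ => rfl
      ext s
      rw [Finset.mem_union, Finset.mem_filter, Finset.mem_filter, Finset.mem_filter, mem_Zf, mem_Zf, hF]
      constructor
      · rintro ⟨⟨a1, a2, a3, a4, a5⟩, a6⟩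
        rcases lt_or_ge s.im a with h | h
        · exact Or.inl ⟨⟨a1, a2, a3, a4, h.le⟩, h⟩
        · exact Or.inr ⟨⟨a1, a2, a3, h, a5.trans hgb⟩, a6⟩
      · rintro (⟨⟨a1, a2, a3, a4, a5⟩, a6⟩ | ⟨⟨a1, a2, a3, a4, a5⟩, a6⟩)
        · exact ⟨⟨a1, a2, a3, a4, a5.trans hag⟩, hp2 _ a6⟩
        · exact ⟨⟨a1, a2, a3, by linarith, hp1 _ a6⟩, a6⟩
    · rw [Finset.disjoint_left]
      intro s h1 h2
      rw [Finset.mem_filter] at h1 h2
      rw [hF] at h2
      linarith [h1.2, h2.1.2.2.2.1]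
  constructor
  · have h1 := e0 (fun x => x ≤ g) (fun x h => h) (fun x h => by linarith)
    rw [← h1, N_eq]
    refine Finset.sum_congr ?_ fun _ _ => rfl
    ext s
    rw [Finset.mem_filter, mem_Zf]
    exact ⟨fun h => ⟨h, h.2.2.2.2⟩, fun h => h.1⟩
  · rw [Nl_eq (by linarith)]
    exact e0 (fun x => x < g) (fun x h => h.le) (fun x h => by linarith)

/-- the number of the elements of `A` among the indices of the zeros with ordinate `g` -/
def al (A : Set ℕ) (g : ℝ) : ℕ := cnt A (Nl g) (Mg g)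

/-- this number is divided among the zeros -/
def oA (A : Set ℕ) (s : ℂ) : ℝ := (mz s : ℝ) * ((al A s.im : ℝ) / (Mg s.im : ℝ))

lemma cnt_le_self (A : Set ℕ) (m k : ℕ) : cnt A m k ≤ k := by
  classical
  unfold cnt
  refine (Finset.card_filter_le _ _).trans ?_
  rw [Nat.card_Ioc]
  omega

lemma oA_nonneg (A : Set ℕ) (s : ℂ) : 0 ≤ oA A s := by
  unfold oA
  positivity

lemma oA_le (A : Set ℕ) (s : ℂ) : oA A s ≤ mz s := by
  unfold oA
  have h1 : (al A s.im : ℝ) / (Mg s.im : ℝ) ≤ 1 := by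
    refine div_le_one_of_le₀ ?_ (by positivity)
    exact_mod_cast cnt_le_self A _ _
  have h2 : (0 : ℝ) ≤ mz s := Nat.cast_nonneg _
  nlinarith

lemma oA_lev (A : Set ℕ) (g : ℝ) : ∑ s ∈ lev g, oA A s = al A g := by
  have h1 : ∑ s ∈ lev g, oA A s = ∑ s ∈ lev g, (mz s : ℝ) * ((al A g : ℝ) / (Mg g : ℝ)) := by
    refine Finset.sum_congr rfl fun s hs => ?_
    unfold oA
    rw [(mem_lev.1 hs).2.2.2]
  rw [h1, ← Finset.sum_mul]
  have h2 : ∑ s ∈ lev g, (mz s : ℝ) = Mg g := by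
    unfold Mg
    push_cast
    rfl
  rw [h2]
  rcases Nat.eq_zero_or_pos (Mg g) with h | h
  · unfold al
    rw [h, cnt_zero]
    simp
  · have : (0 : ℝ) < Mg g := by exact_mod_cast h
    field_simp

open Classical in
/-- the elements of `A` among the indices of a window -/
lemma cnt_win (A : Set ℕ) {a b : ℝ} (ha : 0 < a) (F : Finset ℂ)
    (hF : ∀ s, s ∈ F ↔ riemannZeta s = 0 ∧ 0 < s.re ∧ s.re < 1 ∧ a ≤ s.im ∧ s.im ≤ b) :
    (cnt A (Nl a) (∑ s ∈ F, mz s) : ℝ) = ∑ s ∈ F, oA A s := by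
  have hmaps : ∀ s ∈ F, s.im ∈ F.image (fun s => s.im) := fun s hs => Finset.mem_image_of_mem _ hs
  have hlev : ∀ g ∈ F.image (fun s => s.im), a ≤ g ∧ g ≤ b ∧ F.filter (fun s => s.im = g) = lev g := by
    intro g hg
    obtain ⟨s, hs, rfl⟩ := Finset.mem_image.1 hg
    rw [hF] at hs
    refine ⟨hs.2.2.2.1, hs.2.2.2.2, ?_⟩
    ext u
    rw [Finset.mem_filter, hF, mem_lev]
    constructor
    · rintro ⟨⟨a1, a2, a3, a4, a5⟩, a6⟩
      exact ⟨a1, a2, a3, a6⟩
    · rintro ⟨a1, a2, a3, a6⟩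
      exact ⟨⟨a1, a2, a3, by rw [a6]; exact hs.2.2.2.1, by rw [a6]; exact hs.2.2.2.2⟩, a6⟩
  have h1 : ∑ s ∈ F, mz s = ∑ g ∈ F.image (fun s => s.im), Mg g := by
    rw [← Finset.sum_fiberwise_of_maps_to hmaps]
    refine Finset.sum_congr rfl fun g hg => ?_
    rw [(hlev g hg).2.2]
    rfl
  have h2 : ∑ s ∈ F, oA A s = ∑ g ∈ F.image (fun s => s.im), (al A g : ℝ) := by
    rw [← Finset.sum_fiberwise_of_maps_to hmaps]
    refine Finset.sum_congr rfl fun g hg => ?_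
    rw [(hlev g hg).2.2]
    exact oA_lev A g
  rw [h1, h2, cnt_fin]
  push_cast
  refine Finset.sum_congr rfl fun g hg => ?_
  unfold al
  obtain ⟨g1, g2, -⟩ := hlev g hg
  rw [(N_win ha g1 g2 F hF).2]
  congr 3
  have h3 : ∀ s ∈ F.filter (fun s => s.im < g), s.im ∈ (F.image (fun s => s.im)).filter (· < g) := by
    intro s hs
    rw [Finset.mem_filter] at hs
    exact Finset.mem_filter.2 ⟨hmaps s hs.1, hs.2⟩
  rw [← Finset.sum_fiberwise_of_maps_to h3]
  refine Finset.sum_congr rfl fun x hx => ?_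
  rw [Finset.mem_filter] at hx
  unfold Mg
  rw [← (hlev x hx.1).2.2]
  refine Finset.sum_congr ?_ fun _ _ => rfl
  ext s
  rw [Finset.mem_filter, Finset.mem_filter, Finset.mem_filter]
  constructor
  · rintro ⟨h4, h5⟩
    exact ⟨⟨h4, by rw [h5]; exact hx.2⟩, h5⟩
  · rintro ⟨⟨h4, -⟩, h5⟩
    exact ⟨h4, h5⟩

end

end Pool.Agent.H4.IX
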