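import Pool.Graph.R_pool_sql_team_seeded_3997aac3.Q148.UM.DETI
import Pool.Agent.H4.IX.IsoA
import Pool.Agent.H4.IX.Lev

set_option autoImplicit false

/-! The trace inequality for isolated zeros with index in a given set (after Q148/UM/DETI.lean). -/

namespace Pool.Agent.H4.IX

open Filter Topology MeasureTheory Complex
open scoped ComplexConjugate
open Pool.Agent.Q97.UM
open Pool.Agent.Q61.UM (om_conj one_le_ex one_sub_exp quad_le far_bd Psi_out Psi_nonneg kap_bd pair_int)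
open Pool.Agent.Q148.UM (kap_near gau_bd om_bd near_bd1)
open Pool.Agent.H4.SG (cnl)
open Pool.Agent.Q32.Idx (cnt NoCons N)

noncomputable section

open Classical in
/-- number of simple critical zeros in the window which are at distance `≥ d/L` from all other zeros of the window and have index in `A` -/
def NiA (A : Set ℕ) (d T r t : ℝ) : ℝ := (((ZT T).filter (fun s => (s.re = 1 / 2 ∧ mz s = 1 ∧ |s.im - t| ≤ r ∧
  ∀ s' ∈ ZT T, |s'.im - t| ≤ r → s' ≠ s → d / Real.log T ≤ ‖s - s'‖) ∧ N 0 s.im ∈ A)).card : ℝ)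

open Classical in
/-- number of the elements of `A` among the indices of the window -/
def cnA (A : Set ℕ) (T r t : ℝ) : ℝ := ∑ s ∈ (ZT T).filter (fun s => |s.im - t| ≤ r), oA A s

open Classical in
set_option maxHeartbeats 4000000 in
theorem t_DETA (hGRM : S_GRM) (g R : ℝ → ℝ) (lam : ℝ) (hg : H295SI.Win g) (hR : H295SI.Conv R) (hK : H295SI.KSq g R)
    (hlam0 : 0 < lam) (hlam1 : lam ≤ 1) (η : ℝ) (hη : 0 < η) : ∃ d : ℝ, 0 < d ∧ d ≤ 1 / 8 ∧
    ∀ (δ H C : ℝ) (K : ℕ) (w : ℝ → ℝ), 0 < δ → δ ≤ 1 / 8 → 1 ≤ H → 1 ≤ C → 2 ≤ K → OmW δ H C K w →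
    ∀ᶠ T : ℝ in atTop, ∀ A : Set ℕ, NoCons A → ∀ t : ℝ, T + 2 * Real.log T ≤ t → t ≤ 2 * T - 2 * Real.log T →
      Nw T (H / Real.log T) t + 2 * cnA A T (H / Real.log T) t - 2 * NiA A d T (H / Real.log T) t ≤
        2 * (∫ α in (0 : ℝ)..1, R α * ‖Zt w T (lam * Real.log T * α) t‖ ^ 2) + 10000 * C ^ 4 * ErrS δ H K T t +
          η * C ^ 2 * Nw T (H / Real.log T) t := by
  obtain ⟨d, hd0, hd8, hdφ⟩ := kap_near hg (η := η / 288) (by positivity)
  refine ⟨d, hd0, hd8, ?_⟩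
  intro δ H C K w hδ hδ8 hH hC hK2 hw
  have t0 : Tendsto (fun T : ℝ => Real.log T ^ 2) atTop atTop :=
    (tendsto_pow_atTop (by norm_num : (2 : ℕ) ≠ 0)).comp Real.tendsto_log_atTop
  filter_upwards [t0.eventually_ge_atTop (4 * H ^ 2), t0.eventually_ge_atTop (4 * H ^ 3),
    t0.eventually_ge_atTop (8 * H / δ ^ 2), Real.tendsto_log_atTop.eventually_ge_atTop 1,
    eventually_ge_atTop (10 : ℝ), Real.tendsto_log_atTop.eventually_ge_atTop (H + 2)] with T hL1 hL2 hL3 hL1' hT hLH A hA t ht1 ht2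
  set L := Real.log T with hL
  have hL0 : 0 < L := by linarith
  have hF := H370.good_zeta
  have hU : (1 : ℝ) ≤ T + 1 := by linarith
  set W := ZT T with hW
  set Z : Finset ℂ := W.image H370.zz with hZ
  set m : ℂ → ℕ := fun z => mz (1 / 2 + I * z) with hm
  have hback : ∀ s : ℂ, (1 / 2 + I * H370.zz s) = s := by
    intro s
    have := H370.zz_spec s
    linear_combination -this
  have hmz : ∀ s : ℂ, m (H370.zz s) = mz s := by
    intro s; simp only [hm]; rw [hback]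
  have hWm : ∀ s ∈ W, s ∈ H370.zset riemannZeta (T + 1) (2 * T - 1) := fun s hs => (H370.mem_Zf hF hU).mp hs
  have hWpos : ∀ s ∈ W, 1 ≤ mz s := by
    intro s hs
    have := hWm s hs
    exact H370.Loc.mult_pos' hF (by linarith [this.2.2.1]) this.2.2.2.2
  have hZc : ∀ z ∈ Z, (starRingEnd ℂ) z ∈ Z := by
    intro z hz
    rw [hZ, Finset.mem_image] at hz
    obtain ⟨s, hs, rfl⟩ := hz
    rw [← H370.zz_refl]
    exact Finset.mem_image_of_mem _ ((H370.mem_Zf hF hU).mpr (H370.zset_refl hF hU (hWm s hs)))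
  have hmp : ∀ z ∈ Z, 1 ≤ m z := by
    intro z hz
    rw [hZ, Finset.mem_image] at hz
    obtain ⟨s, hs, rfl⟩ := hz
    rw [hmz]
    exact hWpos s hs
  have hmc : ∀ z ∈ Z, m ((starRingEnd ℂ) z) = m z := by
    intro z hz
    rw [hZ, Finset.mem_image] at hz
    obtain ⟨s, hs, rfl⟩ := hz
    have := hWm s hs
    rw [← H370.zz_refl, hmz, hmz]
    exact H370.mult_refl hF this.1 this.2.1 (by linarith [this.2.2.1])
  have hsumW : ∀ (f : ℂ → ℝ), ∑ z ∈ Z, f z = ∑ s ∈ W, f (H370.zz s) := by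
    intro f
    rw [hZ, Finset.sum_image (fun s _ s' _ h => H370.zz_inj h)]
  have hsumC : ∀ (f : ℂ → ℂ), ∑ z ∈ Z, f z = ∑ s ∈ W, f (H370.zz s) := by
    intro f
    rw [hZ, Finset.sum_image (fun s _ s' _ h => H370.zz_inj h)]
  have hsumF : ∀ (P : ℂ → Prop) [DecidablePred P] (f : ℂ → ℝ), ∑ z ∈ Z.filter P, f z =
      ∑ s ∈ W.filter (fun s => P (H370.zz s)), f (H370.zz s) := by
    intro P _ f
    rw [hZ, Finset.filter_image, Finset.sum_image (fun s _ s' _ h => H370.zz_inj h)]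
  have hcardF : ∀ (P : ℂ → Prop) [DecidablePred P],
      (Z.filter P).card = (W.filter (fun s => P (H370.zz s))).card := by
    intro P _
    rw [hZ, Finset.filter_image, Finset.card_image_of_injective _ (fun s s' h => H370.zz_inj h)]
  have hsm : ∀ z ∈ Z, |z.im| ≤ 1 / 2 := by
    intro z hz
    rw [hZ, Finset.mem_image] at hz
    obtain ⟨s, hs, rfl⟩ := hz
    have := hWm s hs
    rw [H370.zz_im, abs_neg, abs_le]
    constructor <;> linarith [this.1, this.2.1]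
  -- the objects of the trace inequality
  set Λ : ℝ := lam * L with hΛ
  have hΛ0 : 0 ≤ Λ := by positivity
  have hΛL : Λ ≤ L := by rw [hΛ]; nlinarith
  obtain ⟨a, ha⟩ : ∃ a : ℂ → Prop, a = fun z => |z.re - t| ≤ H / L := ⟨_, rfl⟩
  set X : ℂ → ℂ := fun z => L * (z - t) with hX
  have hXre : ∀ z, (X z).re = L * (z.re - t) := by
    intro z; simp only [hX]; rw [Complex.re_ofReal_mul]; simp
  have hXim : ∀ z, (X z).im = L * z.im := by
    intro z; simp only [hX]; rw [Complex.im_ofReal_mul]; simp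
  have hXrea : ∀ z, |(X z).re| = L * |z.re - t| := by
    intro z; rw [hXre, abs_mul, abs_of_pos hL0]
  have hXima : ∀ z, |(X z).im| = L * |z.im| := by
    intro z; rw [hXim, abs_mul, abs_of_pos hL0]
  have haX : ∀ z, a z ↔ |(X z).re| ≤ H := by
    intro z
    simp only [ha]
    rw [hXrea, le_div_iff₀ hL0, mul_comm]
  obtain ⟨far, hfar⟩ : ∃ far : ℂ → Prop,
    far = fun z => H < |(X z).re| ∧ (1 + (|(X z).re| - H)) ^ K < Real.exp |(X z).im| := ⟨_, rfl⟩
  have hac : ∀ z, a ((starRingEnd ℂ) z) ↔ a z := by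
    intro z; simp only [ha, Complex.conj_re]
  have hfar0 : ∀ z, far z → z.im ≠ 0 := by
    intro z hz h0
    rw [hfar] at hz
    obtain ⟨h1, h2⟩ := hz
    rw [hXim, h0, mul_zero, abs_zero, Real.exp_zero] at h2
    have : 1 ≤ (1 + (|(X z).re| - H)) ^ K := one_le_pow₀ (by linarith)
    linarith
  set ω : ℂ → ℂ := fun z => om w (X z) * cexp (-(z - t) ^ 2 / 4) with hω
  have hXc : ∀ z, X ((starRingEnd ℂ) z) = (starRingEnd ℂ) (X z) := by
    intro z
    simp only [hX, map_mul, map_sub, Complex.conj_ofReal]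
  have hωc : ∀ z, ω ((starRingEnd ℂ) z) = (starRingEnd ℂ) (ω z) := by
    intro z
    simp only [hω]
    rw [map_mul, hXc, om_conj hw, ← Complex.exp_conj]
    congr 2
    rw [map_div₀, map_neg, map_pow, map_sub, Complex.conj_ofReal]
    congr 1
    exact (Complex.conj_ofNat 4).symm
  have hω1 : ∀ z, ω z = om w (X z) * cexp (-(X z / L) ^ 2 / 4) := by
    intro z
    simp only [hω, hX]
    have hLc : (L : ℂ) ≠ 0 := by exact_mod_cast hL0.ne'
    rw [mul_div_cancel_left₀ _ hLc]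
  have hω2 : ∀ z, ω z ^ 2 = om w (X z) ^ 2 * cexp (-(X z / L) ^ 2 / 2) := by
    intro z
    simp only [hω, hX]
    rw [mul_pow, ← Complex.exp_nat_mul]
    have hLc : (L : ℂ) ≠ 0 := by exact_mod_cast hL0.ne'
    rw [mul_div_cancel_left₀ _ hLc]
    congr 2
    push_cast
    ring
  have hω2' : ∀ z, ω z ^ 2 = om w (L * (z - t)) ^ 2 * cexp (-(z - t) ^ 2 / 2) := by
    intro z
    rw [hω2]
    simp only [hX]
    have hLc : (L : ℂ) ≠ 0 := by exact_mod_cast hL0.ne'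
    rw [mul_div_cancel_left₀ _ hLc]
  obtain ⟨E, iE1, iE2, k, hk⟩ := hGRM g hg Λ
  set φ : ℂ → ℂ := fun z => H295SI.kapG g (Λ * z) with hφ
  have hφe : ∀ z, φ (-z) = φ z := by
    intro z
    simp only [hφ]
    rw [mul_neg, H143TG.kapG_even hg]
  have hφ0 : φ 0 = 1 := by
    simp only [hφ]
    rw [mul_zero, H143TG.kapG_zero hg]
  have hφη : ∀ u : ℂ, ‖u‖ ≤ 6 * (d / L) → ‖φ u - 1‖ ≤ η / 288 := by
    intro u hu
    simp only [hφ]
    refine hdφ _ ?_
    rw [norm_mul, Complex.norm_real, Real.norm_of_nonneg hΛ0]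
    calc Λ * ‖u‖ ≤ L * (6 * (d / L)) := mul_le_mul hΛL hu (norm_nonneg _) hL0.le
      _ = 6 * d := by field_simp
  have hM : ∀ z ∈ Z, a z → |z.im| < d / L → ‖ω z‖ ≤ 3 * C := by
    intro z hz haz him
    have h1 : |(X z).im| ≤ 1 / 8 := by
      rw [hXima]
      rw [lt_div_iff₀ hL0] at him
      linarith
    rw [hω1]
    exact om_bd hδ.le hδ8 hC hw hL0 hL1' ((haX z).1 haz) h1
  obtain ⟨n₁, hn₁⟩ : ∃ n₁, n₁ = Nl (t - H / L) := ⟨_, rfl⟩
  have hcount := @t_ISOA E iE1 iE2 φ k hk hφe hφ0 Z m hZc hmp hmc ω hωc a far hac hfar0 (d / L) (η / 288) (3 * C)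
    (by positivity) (by positivity) (by linarith) hφη hM A hA n₁
  -- the window
  have hHL : H / L ≤ 1 := by rw [div_le_one hL0]; linarith
  have hHL0 : 0 < H / L := by positivity
  obtain ⟨F, hFd⟩ : ∃ F : Finset ℂ, F = W.filter (fun s => |s.im - t| ≤ H / L) := ⟨_, rfl⟩
  have hFm : ∀ s, s ∈ F ↔ riemannZeta s = 0 ∧ 0 < s.re ∧ s.re < 1 ∧ t - H / L ≤ s.im ∧ s.im ≤ t + H / L := by
    intro s
    rw [hFd, Finset.mem_filter, hW]
    unfold ZT
    rw [H370.mem_Zf hF hU, abs_le]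
    constructor
    · rintro ⟨⟨a1, a2, a3, a4, a5⟩, a6, a7⟩
      exact ⟨a5, a1, a2, by linarith, by linarith⟩
    · rintro ⟨a5, a1, a2, a6, a7⟩
      exact ⟨⟨a1, a2, by linarith, by linarith, a5⟩, by linarith, by linarith⟩
  have ht0 : 0 < t - H / L := by linarith
  have hfilt : Z.filter a = F.image H370.zz := by
    rw [hZ, Finset.filter_image, hFd]
    congr 1
    ext s
    simp only [Finset.mem_filter, ha, H370.zz_re]
  have hsumm : ∑ z ∈ Z.filter a, m z = ∑ s ∈ F, mz s := by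
    rw [hfilt, Finset.sum_image (fun s _ s' _ h => H370.zz_inj h)]
    exact Finset.sum_congr rfl fun s _ => hmz s
  have hcn : (cnt A n₁ (∑ z ∈ Z.filter a, m z) : ℝ) = cnA A T (H / L) t := by
    rw [hsumm, hn₁, cnt_win A ht0 F hFm, hFd]
    unfold cnA
    refine Finset.sum_congr ?_ fun _ _ => rfl
    congr!
  have hix : ∀ s ∈ F, ix (Z.filter a) m n₁ s.im = N 0 s.im := by
    intro s hs
    have hs' := (hFm s).1 hs
    rw [(N_win ht0 hs'.2.2.2.1 hs'.2.2.2.2 F hFm).1, hn₁]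
    unfold ix cnl
    congr 1
    rw [hfilt, Finset.filter_image, Finset.sum_image (fun s _ s' _ h => H370.zz_inj h)]
    refine Finset.sum_congr ?_ fun s _ => hmz s
    ext u
    simp only [Finset.mem_filter, H370.zz_re]
  -- the numbers
  set x1 : ℝ := ((Z.filter (fun z => a z ∧ z.im = 0 ∧ m z = 1 ∧ (∀ w ∈ Z, a w → w ≠ z → d / L ≤ ‖z - w‖) ∧ ix (Z.filter a) m n₁ z.re ∈ A)).card : ℝ) with hx1
  have hX1 : x1 = NiA A d T (H / L) t := by
    rw [hx1]
    unfold NiA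
    rw [hcardF]
    congr 2
    ext s
    have hix' : s ∈ W → |s.im - t| ≤ H / L → ix (Finset.filter (fun z => |z.re - t| ≤ H / L) Z) m n₁ s.im = N 0 s.im := by
      intro h1 h2
      have h3 := hix s (by rw [hFd]; exact Finset.mem_filter.2 ⟨h1, h2⟩)
      rw [← h3]
      congr 1
      ext u
      simp only [Finset.mem_filter, ha]
    simp only [Finset.mem_filter, ha, hmz, H370.zz_re, H370.zz_im]
    have hzd : ∀ s' : ℂ, ‖H370.zz s - H370.zz s'‖ = ‖s - s'‖ := by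
      intro s'
      have e1 : s - s' = I * (H370.zz s - H370.zz s') := by
        linear_combination (H370.zz_spec s) - (H370.zz_spec s')
      rw [e1, norm_mul, Complex.norm_I, one_mul]
    constructor
    · rintro ⟨h1, h2, h3, h4, h5, h9⟩
      rw [hix' h1 h2] at h9
      refine ⟨h1, ⟨by linarith, h4, h2, fun s' hs' h6 h7 => ?_⟩, h9⟩
      rw [← hzd]
      refine h5 _ (Finset.mem_image_of_mem _ hs') (by rw [H370.zz_re]; exact h6) fun h8 => h7 (H370.zz_inj h8)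
    · rintro ⟨h1, ⟨h2, h3, h4, h5⟩, h9⟩
      rw [← hix' h1 h4] at h9
      refine ⟨h1, h4, by rw [h2]; ring, h3, fun w hw' h6 h7 => ?_, h9⟩
      obtain ⟨s', hs', rfl⟩ := Finset.mem_image.1 hw'
      rw [hzd]
      refine h5 s' hs' (by rw [H370.zz_re] at h6; exact h6) fun h8 => h7 (by rw [h8])
  have hN : ∑ z ∈ Z.filter a, (m z : ℝ) = Nw T (H / L) t := by
    rw [hsumF]
    unfold Nw
    refine Finset.sum_congr ?_ fun s _ => by rw [hmz]
    ext s
    simp only [Finset.mem_filter, ha, H370.zz_re]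
    exact Iff.rfl
  -- the error term as a sum over `Z`
  set P : ℂ → ℝ := fun z => Psi δ H K (X z).re |(X z).im| with hP
  have hP0 : ∀ z, 0 ≤ P z := fun z => Psi_nonneg (by linarith) _ _
  have hErr : ErrS δ H K T t = ∑ z ∈ Z, (m z : ℝ) * P z := by
    rw [hsumW]
    unfold ErrS
    refine Finset.sum_congr rfl fun s _ => ?_
    rw [hmz]
    simp only [hP]
    rw [hXre, hXima, H370.zz_re, H370.zz_im, abs_neg]
  have hm0 : ∀ z : ℂ, (0 : ℝ) ≤ m z := fun z => Nat.cast_nonneg _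
  have himL : ∀ z ∈ Z, |(X z).im| ≤ L / 2 := by
    intro z hz
    rw [hXima]
    have := hsm z hz
    nlinarith
  -- pointwise bounds
  have near : ∀ z ∈ Z, a z → 8 * ‖1 - ω z‖ * (1 + ‖ω z‖) + 288 * C ^ 2 * ‖1 - ω z‖ ≤ 400 * C ^ 4 * P z := by
    intro z hz haz
    rw [hω1]
    exact near_bd1 hδ hH hC hw hL0 hL1 hL2 hL3 ((haX z).1 haz) (himL z hz)
  have hCC : 1 ≤ C ^ 2 := one_le_pow₀ hC
  have out : ∀ z ∈ Z, ¬ a z → ∃ e q : ℝ, 1 ≤ e ∧ 1 ≤ q ∧ ‖ω z‖ ^ 2 ≤ 2 * C ^ 2 * e ^ 2 / q ^ 2 ∧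
      P z = e ^ 3 * (1 / q + if q < Real.exp |(X z).im| then 1 else 0) ∧ q = (1 + (|(X z).re| - H)) ^ K := by
    intro z hz haz
    have h1 : H < |(X z).re| := by
      rw [haX, not_le] at haz
      exact haz
    refine ⟨Real.exp (δ * |(X z).im|), (1 + (|(X z).re| - H)) ^ K, one_le_ex hδ.le (abs_nonneg _),
      one_le_pow₀ (by linarith), ?_, ?_, rfl⟩
    · rw [← norm_pow, hω2]
      exact far_bd hw hC hL0 h1 (himL z hz)
    · simp only [hP]
      rw [Psi_out h1]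
      congr 1
      rw [← Real.exp_nat_mul]
      congr 1
      push_cast
      ring
  -- sums
  have hsplit : ∑ z ∈ Z.filter a, (m z : ℝ) * P z + (∑ z ∈ Z.filter (fun z => ¬ a z ∧ ¬ far z), (m z : ℝ) * P z +
      ∑ z ∈ Z.filter (fun z => ¬ a z ∧ far z), (m z : ℝ) * P z) = ∑ z ∈ Z, (m z : ℝ) * P z := by
    rw [← Finset.sum_filter_add_sum_filter_not Z a]
    congr 1
    rw [← Finset.sum_filter_add_sum_filter_not (Z.filter fun z => ¬ a z) far, Finset.filter_filter,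
      Finset.filter_filter, add_comm]
  set Ea := ∑ z ∈ Z.filter a, (m z : ℝ) * P z with hEa
  set En := ∑ z ∈ Z.filter (fun z => ¬ a z ∧ ¬ far z), (m z : ℝ) * P z with hEn
  set Ef := ∑ z ∈ Z.filter (fun z => ¬ a z ∧ far z), (m z : ℝ) * P z with hEf
  have hEa0 : 0 ≤ Ea := Finset.sum_nonneg fun z _ => mul_nonneg (hm0 z) (hP0 z)
  have hEn0 : 0 ≤ En := Finset.sum_nonneg fun z _ => mul_nonneg (hm0 z) (hP0 z)
  have hEf0 : 0 ≤ Ef := Finset.sum_nonneg fun z _ => mul_nonneg (hm0 z) (hP0 z)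
  have b1 : ∑ z ∈ Z.filter a, (m z : ℝ) * (8 * ‖1 - ω z‖ * (1 + ‖ω z‖) + 32 * (3 * C) ^ 2 * (η / 288 + ‖1 - ω z‖)) ≤
      400 * C ^ 4 * Ea + η * C ^ 2 * Nw T (H / L) t := by
    rw [← hN, hEa, Finset.mul_sum, Finset.mul_sum, ← Finset.sum_add_distrib]
    refine Finset.sum_le_sum fun z hz => ?_
    rw [Finset.mem_filter] at hz
    have h1 := mul_le_mul_of_nonneg_left (near z hz.1 hz.2) (hm0 z)
    have h2 : (m z : ℝ) * (8 * ‖1 - ω z‖ * (1 + ‖ω z‖) + 32 * (3 * C) ^ 2 * (η / 288 + ‖1 - ω z‖)) =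
        (m z : ℝ) * (8 * ‖1 - ω z‖ * (1 + ‖ω z‖) + 288 * C ^ 2 * ‖1 - ω z‖) + η * C ^ 2 * m z := by ring
    rw [h2]
    linarith
  have b3 : ∑ z ∈ Z.filter (fun z => ¬ a z ∧ ¬ far z),
      4 * (m z : ℝ) * (‖ω z‖ ^ 2 * (‖φ (z - (starRingEnd ℂ) z)‖ + 1)) ≤ 16 * C ^ 2 * En := by
    rw [hEn, Finset.mul_sum]
    refine Finset.sum_le_sum fun z hz => ?_
    rw [Finset.mem_filter] at hz
    obtain ⟨hz1, hz2, hz3⟩ := hz
    obtain ⟨e, q, he, hq, ho1, ho2, ho3⟩ := out z hz1 hz2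
    have h1 : H < |(X z).re| := by
      rw [haX, not_le] at hz2
      exact hz2
    have h2 : Real.exp |(X z).im| ≤ q := by
      by_contra hcon
      rw [not_le, ho3] at hcon
      exact hz3 (by rw [hfar]; exact ⟨h1, hcon⟩)
    have h3 : ‖φ (z - (starRingEnd ℂ) z)‖ ≤ q := by
      refine (kap_bd hg hΛ0 z).trans (le_trans (Real.exp_le_exp.2 ?_) h2)
      rw [hXima]
      exact mul_le_mul_of_nonneg_right hΛL (abs_nonneg _)
    have h4 : ‖ω z‖ ^ 2 * (‖φ (z - (starRingEnd ℂ) z)‖ + 1) ≤ (2 * C ^ 2 * e ^ 2 / q ^ 2) * (2 * q) :=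
      mul_le_mul ho1 (by linarith) (by positivity) (by positivity)
    have h5 : (2 * C ^ 2 * e ^ 2 / q ^ 2) * (2 * q) = 4 * C ^ 2 * (e ^ 2 * (1 / q)) := by
      field_simp
      ring
    have h6 : e ^ 2 * (1 / q) ≤ P z := by
      rw [ho2, if_neg (not_lt.2 h2), add_zero]
      exact mul_le_mul_of_nonneg_right (pow_le_pow_right₀ he (by norm_num)) (by positivity)
    have h7 : ‖ω z‖ ^ 2 * (‖φ (z - (starRingEnd ℂ) z)‖ + 1) ≤ 4 * C ^ 2 * P z := by
      refine h4.trans ?_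
      rw [h5]
      exact mul_le_mul_of_nonneg_left h6 (by positivity)
    have := mul_le_mul_of_nonneg_left h7 (by have := hm0 z; positivity : 0 ≤ 4 * (m z : ℝ))
    linarith
  have b4 : ∑ z ∈ Z.filter (fun z => ¬ a z ∧ far z), (m z : ℝ) * (8 * ‖ω z‖ ^ 2 + 4) ≤ 20 * C ^ 2 * Ef := by
    rw [hEf, Finset.mul_sum]
    refine Finset.sum_le_sum fun z hz => ?_
    rw [Finset.mem_filter] at hz
    obtain ⟨hz1, hz2, hz3⟩ := hz
    obtain ⟨e, q, he, hq, ho1, ho2, ho3⟩ := out z hz1 hz2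
    have h2 : q < Real.exp |(X z).im| := by
      rw [hfar] at hz3
      rw [ho3]; exact hz3.2
    rw [if_pos h2] at ho2
    have h3 : 1 ≤ e ^ 3 := one_le_pow₀ he
    have h4 : 8 * ‖ω z‖ ^ 2 + 4 ≤ 20 * C ^ 2 * P z := by
      have h5 : 2 * C ^ 2 * e ^ 2 / q ^ 2 ≤ 2 * C ^ 2 * e ^ 3 := by
        have h6 : 2 * C ^ 2 * e ^ 2 / q ^ 2 ≤ 2 * C ^ 2 * e ^ 2 :=
          div_le_self (by positivity) (one_le_pow₀ hq)
        refine h6.trans ?_
        exact mul_le_mul_of_nonneg_left (pow_le_pow_right₀ he (by norm_num)) (by positivity)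
      have h7 : e ^ 3 ≤ P z := by
        rw [ho2]
        have : 0 ≤ e ^ 3 * (1 / q) := by positivity
        nlinarith
      have h8 : 4 ≤ 4 * C ^ 2 * e ^ 3 := by nlinarith
      have h9 : C ^ 2 * e ^ 3 ≤ C ^ 2 * P z := mul_le_mul_of_nonneg_left h7 (by positivity)
      nlinarith
    have := mul_le_mul_of_nonneg_left h4 (hm0 z)
    linarith
  -- the pair sum
  have hcj : ∀ u : ℝ, ∑ z ∈ Z, ((m z : ℂ) * ω z ^ 2) * cexp (-(I * u * z)) =
      conj (∑ z ∈ Z, ((m z : ℂ) * ω z ^ 2) * cexp (I * u * z)) := by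
    intro u
    rw [map_sum]
    have h1 : ∑ z ∈ Z, ((m z : ℂ) * ω z ^ 2) * cexp (-(I * u * z)) =
        ∑ z ∈ Z, ((m ((starRingEnd ℂ) z) : ℂ) * ω ((starRingEnd ℂ) z) ^ 2) * cexp (-(I * u * (starRingEnd ℂ) z)) := by
      refine Finset.sum_nbij' (fun z => (starRingEnd ℂ) z) (fun z => (starRingEnd ℂ) z) (fun z hz => hZc z hz)
        (fun z hz => hZc z hz) (fun z _ => Complex.conj_conj z) (fun z _ => Complex.conj_conj z) fun z _ => ?_
      rw [Complex.conj_conj]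
    rw [h1]
    refine Finset.sum_congr rfl fun z hz => ?_
    have h2 : (starRingEnd ℂ) (cexp (I * u * z)) = cexp (-(I * u * (starRingEnd ℂ) z)) := by
      rw [← Complex.exp_conj]
      congr 1
      rw [map_mul, map_mul, Complex.conj_I, Complex.conj_ofReal]
      ring
    rw [hmc z hz, hωc, map_mul (starRingEnd ℂ) ((m z : ℂ) * ω z ^ 2) (cexp (I * u * z)),
      map_mul (starRingEnd ℂ) (m z : ℂ) (ω z ^ 2), map_pow, h2, map_natCast]
  have hQ : (∑ z ∈ Z, ∑ w ∈ Z, (m z : ℂ) * (m w : ℂ) * (ω z * ω w * φ (z - w)) ^ 2).re =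
      2 * ∫ α in (0 : ℝ)..1, R α * ‖Zt w T (lam * L * α) t‖ ^ 2 := by
    have h1 := pair_int hR hK Z (fun z => (m z : ℂ) * ω z ^ 2) Λ hcj
    have h2 : ∑ z ∈ Z, ∑ w ∈ Z, (m z : ℂ) * (m w : ℂ) * (ω z * ω w * φ (z - w)) ^ 2 =
        ∑ z ∈ Z, ∑ w ∈ Z, ((m z : ℂ) * ω z ^ 2) * ((m w : ℂ) * ω w ^ 2) * H295SI.kapG g (Λ * (z - w)) ^ 2 := by
      refine Finset.sum_congr rfl fun z _ => Finset.sum_congr rfl fun w _ => ?_
      simp only [hφ]
      ring
    rw [h2, h1]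
    congr 1
    apply intervalIntegral.integral_congr
    intro α _
    simp only
    congr 3
    rw [hsumC]
    unfold Zt
    refine Finset.sum_congr rfl fun s _ => ?_
    rw [hmz, hω2']
    ring
  rw [hQ, hN, hcn] at hcount
  rw [hErr, ← hsplit, ← hX1]
  set Q := 2 * ∫ α in (0 : ℝ)..1, R α * ‖Zt w T (lam * L * α) t‖ ^ 2 with hQd
  have hC4 : C ^ 2 ≤ C ^ 4 := pow_le_pow_right₀ hC (by norm_num)
  have hCa : 0 ≤ C ^ 4 * Ea := by positivity
  have hCn : C ^ 2 * En ≤ C ^ 4 * En := mul_le_mul_of_nonneg_right hC4 hEn0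
  have hCf : C ^ 2 * Ef ≤ C ^ 4 * Ef := mul_le_mul_of_nonneg_right hC4 hEf0
  have hCn0 : 0 ≤ C ^ 2 * En := by positivity
  have hCf0 : 0 ≤ C ^ 2 * Ef := by positivity
  linarith [hcount, b1, b3, b4]

end

end Pool.Agent.H4.IX
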