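import Pool.Agent.H4.IX.Ord
import Pool.Graph.R_pool_sql_team_seeded_3997aac3.Q61.UM.SAMPb

set_option autoImplicit false

/-! Indices of bad zeros in approximation events. -/

open Filter Topology MeasureTheory Complex

namespace Pool.Agent.H4.IX

open Pool.Agent.Q97.UM Pool.Agent.H4.UZ Pool.Agent.H4.LD
open Pool.Agent.Q32.Idx (NoCons N N_split mem_Zf)
open H370 (NN cMTinv)

noncomputable section

/-- the weights are uniformly continuous -/
lemma W_unif (W : Wgt) {ε : ℝ} (hε : 0 < ε) : ∃ δ : ℝ, 0 < δ ∧ ∀ t t' : ℝ, |t - t'| ≤ δ → |W.w t - W.w t'| ≤ ε := by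
  have hD := Pool.Agent.Q84.UM.t_DPM
  obtain ⟨b', hb'⟩ : ∃ b' : ℕ → ℂ, ∀ t, HasDerivAt (dp W.M W.c) (dp W.M b' t) t := ⟨_, Pool.Agent.Q61.UM.dp_deriv W.M W.c⟩
  obtain ⟨L, hL⟩ : ∃ L, L = Real.sqrt (W.M * N2 W.M b') := ⟨_, rfl⟩
  obtain ⟨B, hB⟩ : ∃ B, B = Real.sqrt (W.M * N2 W.M W.c) := ⟨_, rfl⟩
  have hL0 : 0 ≤ L := by rw [hL]; positivity
  have hB0 : 0 ≤ B := by rw [hB]; positivity
  have h1 : ∀ t, ‖dp W.M b' t‖ ≤ L := fun t => by
    rw [hL]; exact Real.le_sqrt_of_sq_le (hD.2.2 W.M b' t).1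
  have h2 : ∀ t, ‖dp W.M W.c t‖ ≤ B := fun t => by
    rw [hB]; exact Real.le_sqrt_of_sq_le (hD.2.2 W.M W.c t).1
  have h3 : ∀ t t' : ℝ, ‖dp W.M W.c t - dp W.M W.c t'‖ ≤ L * |t - t'| := by
    intro t t'
    have h4 := Convex.norm_image_sub_le_of_norm_hasDerivWithin_le (f := dp W.M W.c) (f' := dp W.M b') (C := L) (s := Set.univ)
      (fun x _ => (hb' x).hasDerivWithinAt) (fun x _ => h1 x) convex_univ (Set.mem_univ t') (Set.mem_univ t)
    rwa [Real.norm_eq_abs] at h4
  refine ⟨ε / (2 * (B * L) + 1), by positivity, fun t t' ht => ?_⟩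
  unfold Wgt.w
  have e : ‖dp W.M W.c t‖ ^ 2 - ‖dp W.M W.c t'‖ ^ 2 = (‖dp W.M W.c t‖ + ‖dp W.M W.c t'‖) * (‖dp W.M W.c t‖ - ‖dp W.M W.c t'‖) := by ring
  rw [e, abs_mul]
  have h5 : |‖dp W.M W.c t‖ + ‖dp W.M W.c t'‖| ≤ 2 * B := by
    rw [abs_of_nonneg (by positivity)]
    linarith [h2 t, h2 t']
  have h6 : |‖dp W.M W.c t‖ - ‖dp W.M W.c t'‖| ≤ L * (ε / (2 * (B * L) + 1)) :=
    (abs_norm_sub_norm_le _ _).trans ((h3 t t').trans (mul_le_mul_of_nonneg_left ht hL0))
  calc |‖dp W.M W.c t‖ + ‖dp W.M W.c t'‖| * |‖dp W.M W.c t‖ - ‖dp W.M W.c t'‖| ≤ 2 * B * (L * (ε / (2 * (B * L) + 1))) :=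
        mul_le_mul h5 h6 (abs_nonneg _) (by positivity)
    _ = (2 * (B * L)) * ε / (2 * (B * L) + 1) := by ring
    _ ≤ ε := by
      rw [div_le_iff₀ (by positivity)]
      nlinarith [mul_nonneg hB0 hL0]

open Classical in
/-- bad indices, weighted -/
theorem bad_w (W : Wgt) {ε : ℝ} (hε : 0 < ε) : ∃ d : ℝ, 0 < d ∧ d ≤ 1 ∧ ∀ᶠ T : ℝ in atTop, ∀ A : Set ℕ, NoCons A →
    ∑ n ∈ (In T).filter (fun n => n ∈ A ∧ n ∉ gdi d T), W.w (ord n) ≤ ((cMTinv - 1) / 2 * W.m + ε) * AA T := by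
  obtain ⟨d, θ, hd0, hd1, hθ0, -, h⟩ := sama (ε / (W.m + 1)) (by have := W.m_nonneg; positivity)
  refine ⟨d, hd0, hd1, ?_⟩
  have hlen : ∀ᶠ T : ℝ in atTop, (W.M : ℝ) ≤ T ^ θ := (tendsto_rpow_atTop hθ0).eventually_ge_atTop _
  filter_upwards [h, hlen, eventually_ge_atTop (3 : ℝ)] with T h hlen hT A hA
  have h1 := h A hA W.M hlen 1 (fun _ => 1) (fun _ => W.c) (fun t => by
    unfold WT
    rw [Fin.sum_univ_one, one_mul]
    positivity)
  have hL0 : 0 < Real.log T := Real.log_pos (by linarith)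
  have hpi := Real.pi_pos
  have hA0 : 0 < AA T := by unfold AA; positivity
  have hm := W.m_nonneg
  have eW : ∀ t, WT W.M (fun _ : Fin 1 => (1 : ℝ)) (fun _ => W.c) t = W.w t := by
    intro t
    unfold WT Wgt.w
    rw [Fin.sum_univ_one, one_mul]
  have eM : MW W.M (fun _ : Fin 1 => (1 : ℝ)) (fun _ => W.c) = W.m := by
    unfold MW Wgt.m
    rw [Fin.sum_univ_one, one_mul]
  have eV : VW W.M (fun _ : Fin 1 => (1 : ℝ)) (fun _ => W.c) = W.m := by
    unfold VW Wgt.m
    rw [Fin.sum_univ_one, abs_one, one_mul]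
  simp only [eW, eM, eV] at h1
  rw [← sum_ord (by linarith) A W.w, ← sum_good (by linarith) A W.w] at h1
  have h2 : ∑ n ∈ (In T).filter (· ∈ A), W.w (ord n) = ∑ n ∈ (In T).filter (fun n => n ∈ A ∧ n ∈ gdi d T), W.w (ord n) +
      ∑ n ∈ (In T).filter (fun n => n ∈ A ∧ n ∉ gdi d T), W.w (ord n) := by
    rw [← Finset.sum_filter_add_sum_filter_not ((In T).filter (· ∈ A)) (fun n => n ∈ gdi d T), Finset.filter_filter, Finset.filter_filter]
  rw [h2] at h1
  have h3 : Real.log T / (2 * Real.pi) * (T * ((1 - cMTinv) / 2 * W.m - ε / (W.m + 1) * W.m)) =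
      ((1 - cMTinv) / 2 * W.m - ε / (W.m + 1) * W.m) * AA T := by unfold AA; ring
  rw [h3] at h1
  have h4 : ε / (W.m + 1) * W.m ≤ ε := by
    rw [div_mul_eq_mul_div, div_le_iff₀ (by positivity)]
    nlinarith
  have h5 : ε / (W.m + 1) * W.m * AA T ≤ ε * AA T := mul_le_mul_of_nonneg_right h4 hA0.le
  nlinarith

variable {S : ℝ → Set ℝ}

open Classical in
/-- bad indices in events -/
theorem bad_ev (hS : Apx S) (hW : Apw S) {x z : ℝ} (hxz : x < z) {ε : ℝ} (hε : 0 < ε) :
    ∃ d : ℝ, 0 < d ∧ d ≤ 1 ∧ ∀ᶠ T : ℝ in atTop, ∀ A : Set ℕ, NoCons A →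
      (((In T).filter (fun n => n ∈ A ∧ n ∉ gdi d T ∧ ord n ∈ S x)).card : ℝ) ≤
        ((cMTinv - 1) / 2 * ld (S z) + ε) * NN riemannZeta T (2 * T) := by
  obtain ⟨δ, hδ⟩ : ∃ δ, δ = min (1 / 2) (ε / 60) := ⟨_, rfl⟩
  have hδ0 : 0 < δ := by rw [hδ]; positivity
  have hδ1 : δ ≤ 1 / 2 := by rw [hδ]; exact min_le_left _ _
  have hδ2 : δ ≤ ε / 60 := by rw [hδ]; exact min_le_right _ _
  obtain ⟨W, B, h1, h2, h3, h4⟩ := hW x ((x + z) / 2) (by linarith) δ hδ0
  have hm2 : W.m ≤ ld (S z) + 8 * δ := m_le hS (show (x + z) / 2 < z by linarith) hδ0 (by linarith) h1 h3 h4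
  obtain ⟨d, hd0, hd1, hd⟩ := bad_w W hδ0
  refine ⟨d, hd0, hd1, ?_⟩
  filter_upwards [hd, h4, NN_A hδ0, eventually_ge_atTop (3 : ℝ)] with T g1 g2 g3 hT A hA
  have hL0 : 0 < Real.log T := Real.log_pos (by linarith)
  have hpi := Real.pi_pos
  have hA0 : 0 < AA T := by unfold AA; positivity
  replace g1 := g1 A hA
  have g4 : (((In T).filter (fun n => n ∈ A ∧ n ∉ gdi d T ∧ ord n ∈ S x)).card : ℝ) ≤
      ∑ n ∈ (In T).filter (fun n => n ∈ A ∧ n ∉ gdi d T), W.w (ord n) + δ * (In T).card +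
        (((In T).filter (fun n => ord n ∈ B)).card : ℝ) := by
    rw [Finset.card_filter, Finset.card_filter, Finset.sum_filter, mul_comm δ, ← nsmul_eq_mul, ← Finset.sum_const]
    push_cast
    rw [← Finset.sum_add_distrib, ← Finset.sum_add_distrib]
    refine Finset.sum_le_sum fun n _ => ?_
    have k0 := W.w_nonneg (ord n)
    by_cases k1 : n ∈ A ∧ n ∉ gdi d T
    · rw [if_pos k1]
      by_cases k2 : ord n ∈ S x
      · rw [if_pos ⟨k1.1, k1.2, k2⟩]
        by_cases k3 : ord n ∈ B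
        · rw [if_pos k3]; linarith
        · rw [if_neg k3]
          have := h2 _ k2 k3
          linarith
      · rw [if_neg fun h => k2 h.2.2]
        split_ifs <;> linarith
    · rw [if_neg k1, if_neg fun h => k1 ⟨h.1, h.2.1⟩]
      split_ifs <;> linarith
  rw [card_E (by linarith), card_In (by linarith)] at g4
  rw [abs_le] at g3
  have hcc := H370.cMTinv_lt
  have hcc1 := H370.cMTinv_gt_one
  obtain ⟨κ, hκ⟩ : ∃ κ, κ = (cMTinv - 1) / 2 := ⟨_, rfl⟩
  have hκ0 : 0 ≤ κ := by rw [hκ]; linarith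
  have hκ1 : κ ≤ 1 := by rw [hκ]; linarith
  rw [← hκ] at g1 ⊢
  set n : ℝ := (NN riemannZeta T (2 * T) : ℝ)
  set A' := AA T
  have hn0 : 0 ≤ n := Nat.cast_nonneg _
  have hlz0 := ld_nonneg (S z)
  have hlz := ld_le_one (S z)
  have hm0 := W.m_nonneg
  have hA2 : A' ≤ 2 * n := by nlinarith [g3.1]
  have k1 : (κ * W.m + δ) * A' ≤ (κ * ld (S z) + 9 * δ) * A' := by
    apply mul_le_mul_of_nonneg_right _ hA0.le
    nlinarith
  have k2 : κ * ld (S z) * A' ≤ κ * ld (S z) * (n + δ * A') := mul_le_mul_of_nonneg_left (by linarith [g3.1]) (by positivity)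
  have k3 : κ * ld (S z) * (δ * A') ≤ 1 * (δ * (2 * n)) :=
    mul_le_mul (by nlinarith) (mul_le_mul_of_nonneg_left hA2 hδ0.le) (by positivity) (by norm_num)
  have k4 : 9 * δ * A' ≤ 9 * δ * (2 * n) := mul_le_mul_of_nonneg_left hA2 (by positivity)
  have k8 : δ * n ≤ ε / 60 * n := mul_le_mul_of_nonneg_right hδ2 hn0
  have k12 : 0 ≤ ε * n := by positivity
  nlinarith

open Classical in
/-- most gaps of order `k` are small -/
lemma gaps_small (k : ℕ) {δ ε : ℝ} (hδ : 0 < δ) (hε : 0 < ε) : ∀ᶠ T : ℝ in atTop,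
    (((In T).filter (fun n => n + k ∈ In T ∧ δ < ord (n + k) - ord n)).card : ℝ) ≤ ε * NN riemannZeta T (2 * T) := by
  have hlog : ∀ᶠ T : ℝ in atTop, (k : ℝ) * (4 * Real.pi) / (δ * ε) ≤ Real.log T := Real.tendsto_log_atTop.eventually_ge_atTop _
  filter_upwards [NN_A (show (0 : ℝ) < 1 / 2 by norm_num), hlog, eventually_ge_atTop (3 : ℝ)] with T g3 hlog hT
  have hL0 : 0 < Real.log T := Real.log_pos (by linarith)
  have hpi := Real.pi_pos
  rw [abs_le] at g3
  -- telescoping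
  obtain ⟨a, ha⟩ : ∃ a, a = N 0 T := ⟨_, rfl⟩
  obtain ⟨b, hb⟩ : ∃ b, b = N 0 (2 * T) := ⟨_, rfl⟩
  have hIn : ∀ n, n ∈ In T ↔ a < n ∧ n ≤ b := by
    intro n
    unfold In
    rw [Finset.mem_Ioc, ha, hb]
  set F := (In T).filter (fun n => n + k ∈ In T) with hF
  have hpos : ∀ n ∈ F, 0 ≤ ord (n + k) - ord n := by
    intro n hn
    rw [hF, Finset.mem_filter] at hn
    have := ord_mono (by linarith) hn.1 hn.2 (by omega)
    linarith
  have hsum : ∑ n ∈ F, (ord (n + k) - ord n) ≤ k * T := by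
    rcases lt_or_ge b (a + k) with hab | hab
    · have : F = ∅ := by
        rw [hF, Finset.filter_eq_empty_iff]
        intro n hn hn2
        rw [hIn] at hn hn2
        omega
      rw [this, Finset.sum_empty]
      positivity
    · have hFI : F = Finset.Ioc a (b - k) := by
        ext n
        rw [hF, Finset.mem_filter, hIn, hIn, Finset.mem_Ioc]
        omega
      rw [hFI, Finset.sum_sub_distrib]
      have e1 : ∑ n ∈ Finset.Ioc a (b - k), ord (n + k) = ∑ n ∈ Finset.Ioc (a + k) b, ord n := by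
        refine Finset.sum_bij (fun n _ => n + k) ?_ ?_ ?_ ?_
        · intro n hn
          rw [Finset.mem_Ioc] at hn ⊢
          omega
        · intro n _ m _ h
          omega
        · intro n hn
          rw [Finset.mem_Ioc] at hn
          exact ⟨n - k, by rw [Finset.mem_Ioc]; omega, by omega⟩
        · intro n _
          rfl
      have e2 : ∑ n ∈ Finset.Ioc a b, ord n = ∑ n ∈ Finset.Ioc a (b - k), ord n + ∑ n ∈ Finset.Ioc (b - k) b, ord n := by
        rw [← Finset.sum_union]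
        · congr 1
          ext n
          simp only [Finset.mem_Ioc, Finset.mem_union]
          omega
        · rw [Finset.disjoint_left]
          intro n h1 h2
          rw [Finset.mem_Ioc] at h1 h2
          omega
      have e3 : ∑ n ∈ Finset.Ioc a b, ord n = ∑ n ∈ Finset.Ioc a (a + k), ord n + ∑ n ∈ Finset.Ioc (a + k) b, ord n := by
        rw [← Finset.sum_union]
        · congr 1
          ext n
          simp only [Finset.mem_Ioc, Finset.mem_union]
          omega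
        · rw [Finset.disjoint_left]
          intro n h1 h2
          rw [Finset.mem_Ioc] at h1 h2
          omega
      have e4 : ∑ n ∈ Finset.Ioc (b - k) b, ord n ≤ k * (2 * T) := by
        have h1 : ∀ n ∈ Finset.Ioc (b - k) b, ord n ≤ 2 * T := fun n hn => by
          rw [Finset.mem_Ioc] at hn
          exact (ord_mem (by linarith) ((hIn n).2 (by omega))).2
        have h2 := Finset.sum_le_card_nsmul _ _ _ h1
        rw [Nat.card_Ioc, nsmul_eq_mul] at h2
        have h3 : b - (b - k) = k := by omega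
        rwa [h3] at h2
      have e5 : k * T ≤ ∑ n ∈ Finset.Ioc a (a + k), ord n := by
        have h1 : ∀ n ∈ Finset.Ioc a (a + k), T ≤ ord n := fun n hn => by
          rw [Finset.mem_Ioc] at hn
          exact (ord_mem (by linarith) ((hIn n).2 (by omega))).1.le
        have h2 := Finset.card_nsmul_le_sum _ _ _ h1
        rw [Nat.card_Ioc, nsmul_eq_mul] at h2
        have h3 : a + k - a = k := by omega
        rwa [h3] at h2
      rw [e1]
      linarith
  have hcard : δ * (((In T).filter (fun n => n + k ∈ In T ∧ δ < ord (n + k) - ord n)).card : ℝ) ≤ k * T := by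
    have e : (In T).filter (fun n => n + k ∈ In T ∧ δ < ord (n + k) - ord n) = F.filter (fun n => δ < ord (n + k) - ord n) := by
      rw [hF, Finset.filter_filter]
    rw [e, mul_comm, ← nsmul_eq_mul]
    refine (Finset.card_nsmul_le_sum _ _ _ fun n hn => (Finset.mem_filter.1 hn).2.le).trans ?_
    refine (Finset.sum_le_sum_of_subset_of_nonneg (Finset.filter_subset _ _) fun n hn _ => hpos n hn).trans hsum
  have h5 : (k : ℝ) * T ≤ δ * (ε * NN riemannZeta T (2 * T)) := by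
    rw [div_le_iff₀ (by positivity)] at hlog
    have h6 : 1 / 2 * AA T ≤ NN riemannZeta T (2 * T) := by linarith [g3.1]
    have h7 : δ * (ε * (1 / 2 * AA T)) ≤ δ * (ε * NN riemannZeta T (2 * T)) := by gcongr
    refine le_trans ?_ h7
    have h8 : δ * (ε * (1 / 2 * AA T)) = (Real.log T * (δ * ε)) / (4 * Real.pi) * T := by
      unfold AA
      field_simp
      ring
    rw [h8]
    apply mul_le_mul_of_nonneg_right _ (by linarith)
    rw [le_div_iff₀ (by positivity)]
    exact hlog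
  exact le_of_mul_le_mul_left (hcard.trans h5) hδ

open Classical in
/-- **stability of the events along consecutive zeros** -/
theorem stab (hW : Apw S) {x y : ℝ} (hxy : x < y) (k : ℕ) {ε : ℝ} (hε : 0 < ε) : ∀ᶠ T : ℝ in atTop,
    (((In T).filter (fun n => n + k ∈ In T ∧ ord n ∈ S x ∧ ord (n + k) ∉ S y)).card : ℝ) ≤ ε * NN riemannZeta T (2 * T) ∧
    (((In T).filter (fun n => n + k ∈ In T ∧ ord n ∉ S y ∧ ord (n + k) ∈ S x)).card : ℝ) ≤ ε * NN riemannZeta T (2 * T) := by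
  obtain ⟨W, B, h1, h2, h3, h4⟩ := hW x y hxy (min (1 / 8) (ε / 3)) (by positivity)
  obtain ⟨δ, hδ, hu⟩ := W_unif W (show (0 : ℝ) < 1 / 4 by norm_num)
  filter_upwards [gaps_small k hδ (show 0 < ε / 3 by positivity), h4, eventually_ge_atTop (3 : ℝ)] with T g1 g2 hT
  have hn0 : (0 : ℝ) ≤ NN riemannZeta T (2 * T) := Nat.cast_nonneg _
  have g5 : NE T (2 * T) B ≤ ε / 3 * NN riemannZeta T (2 * T) := g2.trans (mul_le_mul_of_nonneg_right (min_le_right _ _) hn0)
  rw [← card_E (by linarith)] at g5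
  have hm1 := min_le_left (1 / 8 : ℝ) (ε / 3)
  -- the shifted bad set
  have g6 : (((In T).filter (fun n => n + k ∈ In T ∧ ord (n + k) ∈ B)).card : ℝ) ≤ (((In T).filter (fun n => ord n ∈ B)).card : ℝ) := by
    have : ((In T).filter (fun n => n + k ∈ In T ∧ ord (n + k) ∈ B)).card ≤ ((In T).filter (fun n => ord n ∈ B)).card := by
      refine Finset.card_le_card_of_injOn (fun n => n + k) ?_ ?_
      · intro n hn
        have hn := Finset.mem_filter.1 (Finset.mem_coe.1 hn)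
        exact Finset.mem_coe.2 (Finset.mem_filter.2 ⟨hn.2.1, hn.2.2⟩)
      · intro n _ m _ h
        simpa using h
    exact_mod_cast this
  have key : ∀ P : ℕ → Prop, (∀ n ∈ In T, n + k ∈ In T → P n → ord n ∉ B → ord (n + k) ∉ B → δ < ord (n + k) - ord n) →
      (((In T).filter (fun n => n + k ∈ In T ∧ P n)).card : ℝ) ≤ ε * NN riemannZeta T (2 * T) := by
    intro P hP
    have hsub : (In T).filter (fun n => n + k ∈ In T ∧ P n) ⊆
        (In T).filter (fun n => n + k ∈ In T ∧ δ < ord (n + k) - ord n) ∪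
          ((In T).filter (fun n => ord n ∈ B) ∪ (In T).filter (fun n => n + k ∈ In T ∧ ord (n + k) ∈ B)) := by
      intro n hn
      rw [Finset.mem_filter] at hn
      simp only [Finset.mem_union, Finset.mem_filter]
      by_cases k1 : ord n ∈ B
      · exact Or.inr (Or.inl ⟨hn.1, k1⟩)
      · by_cases k2 : ord (n + k) ∈ B
        · exact Or.inr (Or.inr ⟨hn.1, hn.2.1, k2⟩)
        · exact Or.inl ⟨hn.1, hn.2.1, hP n hn.1 hn.2.1 hn.2.2 k1 k2⟩
    have hc := (Finset.card_le_card hsub).trans ((Finset.card_union_le _ _).trans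
      (Nat.add_le_add_left (Finset.card_union_le _ _) _))
    have hc' : (((In T).filter (fun n => n + k ∈ In T ∧ P n)).card : ℝ) ≤
        (((In T).filter (fun n => n + k ∈ In T ∧ δ < ord (n + k) - ord n)).card : ℝ) +
          ((((In T).filter (fun n => ord n ∈ B)).card : ℝ) + (((In T).filter (fun n => n + k ∈ In T ∧ ord (n + k) ∈ B)).card : ℝ)) := by
      exact_mod_cast hc
    linarith
  constructor
  · have fin := key (fun n => ord n ∈ S x ∧ ord (n + k) ∉ S y) ?_
    · convert fin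
    intro n hn hnk hP k1 k2
    by_contra hcon
    have h5 := ord_mono (by linarith) hn hnk (by omega)
    have h6 := hu (ord n) (ord (n + k)) (by rw [abs_sub_comm, abs_of_nonneg (by linarith)]; linarith)
    have h7 := h2 _ hP.1 k1
    have h8 := h3 _ hP.2 k2
    have h9 := (abs_le.1 h6).2
    linarith
  · have fin := key (fun n => ord n ∉ S y ∧ ord (n + k) ∈ S x) ?_
    · convert fin
    intro n hn hnk hP k1 k2
    by_contra hcon
    have h5 := ord_mono (by linarith) hn hnk (by omega)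
    have h6 := hu (ord n) (ord (n + k)) (by rw [abs_sub_comm, abs_of_nonneg (by linarith)]; linarith)
    have h7 := h2 _ hP.2 k2
    have h8 := h3 _ hP.1 k1
    have h9 := (abs_le.1 h6).1
    linarith

end

end Pool.Agent.H4.IX
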