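import Pool.Agent.H4.IX.SamA
import Pool.Agent.H4.LD.Ev

set_option autoImplicit false

/-! The ordinate of the `n`-th zero. -/

open Filter Topology MeasureTheory Complex

namespace Pool.Agent.H4.IX

open Pool.Agent.Q97.UM
open Pool.Agent.Q32.Idx (NoCons N N_eq N_split mult mem_Zf)

noncomputable section

/-- the ordinate of the `n`-th zero -/
def ord (n : ℕ) : ℝ := sInf {t : ℝ | 0 < t ∧ n ≤ N 0 t}

lemma N_mono {a b : ℝ} (ha : 0 ≤ a) (hab : a ≤ b) : N 0 a ≤ N 0 b := by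
  rw [N_split ha hab]; omega

lemma N_le_Nl {t g : ℝ} (ht : 0 ≤ t) (h : t < g) : N 0 t ≤ Nl g := by
  classical
  rw [N_eq, Nl_eq (by linarith)]
  refine Finset.sum_le_sum_of_subset (f := mult) fun s hs => ?_
  rw [mem_Zf] at hs
  rw [Finset.mem_filter, mem_Zf]
  exact ⟨⟨hs.1, hs.2.1, hs.2.2.1, hs.2.2.2.1, by linarith [hs.2.2.2.2]⟩, by linarith [hs.2.2.2.2]⟩

lemma ord_eq {n : ℕ} {g : ℝ} (hg : 0 < g) (h1 : Nl g < n) (h2 : n ≤ N 0 g) : ord n = g := by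
  have : {t : ℝ | 0 < t ∧ n ≤ N 0 t} = Set.Ici g := by
    ext t
    simp only [Set.mem_ofPred_eq, Set.mem_Ici]
    constructor
    · rintro ⟨h3, h4⟩
      by_contra h5
      have := N_le_Nl h3.le (not_le.1 h5)
      omega
    · intro h3
      exact ⟨by linarith, h2.trans (N_mono hg.le h3)⟩
  unfold ord
  rw [this]
  exact csInf_Ici

open Classical in
lemma exists_level {a b : ℝ} (ha : 0 ≤ a) (hab : a ≤ b) {n : ℕ} (h1 : N 0 a < n) (h2 : n ≤ N 0 b) :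
    ∃ s ∈ Pool.Agent.Q32.Idx.Zf a b, Nl s.im < n ∧ n ≤ N 0 s.im := by
  set Z := Pool.Agent.Q32.Idx.Zf a b with hZ
  have hmem : ∀ s, s ∈ Z ↔ riemannZeta s = 0 ∧ 0 < s.re ∧ s.re < 1 ∧ a < s.im ∧ s.im ≤ b := fun s => mem_Zf
  -- the last one
  have key : ∀ t, a ≤ t → t ≤ b → N 0 a < N 0 t → ∃ s ∈ Z, s.im ≤ t ∧ N 0 s.im = N 0 t := by
    intro t h3 h4 h5
    have h6 : (Z.filter (fun s => s.im ≤ t)).Nonempty := by
      rw [Finset.nonempty_iff_ne_empty]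
      intro he
      rw [N_split ha h3, N_eq a t] at h5
      have : Pool.Agent.Q32.Idx.Zf a t = ∅ := by
        rw [Finset.eq_empty_iff_forall_notMem]
        intro s hs
        rw [mem_Zf] at hs
        have : s ∈ Z.filter (fun s => s.im ≤ t) :=
          Finset.mem_filter.2 ⟨(hmem s).2 ⟨hs.1, hs.2.1, hs.2.2.1, hs.2.2.2.1, hs.2.2.2.2.trans h4⟩, hs.2.2.2.2⟩
        rw [he] at this
        exact Finset.notMem_empty _ this
      rw [this, Finset.sum_empty] at h5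
      omega
    obtain ⟨s, hs, hmax⟩ := Finset.exists_max_image _ (fun s : ℂ => s.im) h6
    rw [Finset.mem_filter] at hs
    refine ⟨s, hs.1, hs.2, ?_⟩
    have hs1 := (hmem s).1 hs.1
    rw [N_split (by linarith : (0 : ℝ) ≤ s.im) hs.2, N_eq s.im t]
    have : Pool.Agent.Q32.Idx.Zf s.im t = ∅ := by
      rw [Finset.eq_empty_iff_forall_notMem]
      intro u hu
      rw [mem_Zf] at hu
      have := hmax u (Finset.mem_filter.2 ⟨(hmem u).2 ⟨hu.1, hu.2.1, hu.2.2.1, by linarith [hu.2.2.2.1], hu.2.2.2.2.trans h4⟩, hu.2.2.2.2⟩)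
      linarith [hu.2.2.2.1]
    rw [this, Finset.sum_empty, add_zero]
  have hne : (Z.filter (fun s => n ≤ N 0 s.im)).Nonempty := by
    obtain ⟨s, hs, -, h3⟩ := key b hab le_rfl (by omega)
    exact ⟨s, Finset.mem_filter.2 ⟨hs, by omega⟩⟩
  obtain ⟨s, hs, hmin⟩ := Finset.exists_min_image _ (fun s : ℂ => s.im) hne
  rw [Finset.mem_filter] at hs
  refine ⟨s, hs.1, ?_, hs.2⟩
  have hs1 := (hmem s).1 hs.1
  have hs0 : 0 < s.im := by linarith [hs1.2.2.2.1]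
  by_contra hcon
  push Not at hcon
  -- the zeros below `s.im`
  have h6 : (Z.filter (fun u => u.im < s.im)).Nonempty := by
    rw [Finset.nonempty_iff_ne_empty]
    intro he
    have h7 : Nl s.im ≤ N 0 a := by
      rw [Nl_eq hs0, N_eq]
      refine Finset.sum_le_sum_of_subset (f := mult) fun u hu => ?_
      rw [Finset.mem_filter, mem_Zf] at hu
      rw [mem_Zf]
      refine ⟨hu.1.1, hu.1.2.1, hu.1.2.2.1, hu.1.2.2.2.1, ?_⟩
      by_contra h8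
      have : u ∈ Z.filter (fun u => u.im < s.im) :=
        Finset.mem_filter.2 ⟨(hmem u).2 ⟨hu.1.1, hu.1.2.1, hu.1.2.2.1, not_le.1 h8, by linarith [hu.2, hs1.2.2.2.2]⟩, hu.2⟩
      rw [he] at this
      exact Finset.notMem_empty _ this
    omega
  obtain ⟨u, hu, hmax⟩ := Finset.exists_max_image _ (fun s : ℂ => s.im) h6
  rw [Finset.mem_filter] at hu
  have hu1 := (hmem u).1 hu.1
  have h8 : Nl s.im ≤ N 0 u.im := by
    rw [Nl_eq hs0, N_eq]
    refine Finset.sum_le_sum_of_subset (f := mult) fun v hv => ?_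
    rw [Finset.mem_filter, mem_Zf] at hv
    rw [mem_Zf]
    refine ⟨hv.1.1, hv.1.2.1, hv.1.2.2.1, hv.1.2.2.2.1, ?_⟩
    rcases le_or_gt v.im a with h9 | h9
    · linarith [hu1.2.2.2.1]
    · exact hmax v (Finset.mem_filter.2 ⟨(hmem v).2 ⟨hv.1.1, hv.1.2.1, hv.1.2.2.1, h9, by linarith [hv.2, hs1.2.2.2.2]⟩, hv.2⟩)
  have := hmin u (Finset.mem_filter.2 ⟨hu.1, by omega⟩)
  linarith [hu.2]

lemma Zf_eq {T : ℝ} (hT : 1 ≤ T) (T₂ : ℝ) : H370.Zf riemannZeta T T₂ = Pool.Agent.Q32.Idx.Zf T T₂ := by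
  ext s
  rw [H370.mem_Zf H370.good_zeta hT, mem_Zf]
  exact ⟨fun h => ⟨h.2.2.2.2, h.1, h.2.1, h.2.2.1, h.2.2.2.1⟩, fun h => ⟨h.2.1, h.2.2.1, h.2.2.2.1, h.2.2.2.2, h.1⟩⟩

lemma Mg_pos {s : ℂ} (hs : riemannZeta s = 0 ∧ 0 < s.re ∧ s.re < 1) (h0 : 0 < s.im) : 1 ≤ mz s ∧ mz s ≤ Mg s.im := by
  classical
  refine ⟨H370.Loc.mult_pos' H370.good_zeta h0 hs.1, ?_⟩
  unfold Mg
  exact Finset.single_le_sum (f := fun s => mz s) (fun _ _ => Nat.zero_le _) (mem_lev.2 ⟨hs.1, hs.2.1, hs.2.2, rfl⟩)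

/-- the index of the last zero of a level -/
lemma ord_N {s : ℂ} (hs : riemannZeta s = 0 ∧ 0 < s.re ∧ s.re < 1) (h0 : 0 < s.im) : ord (N 0 s.im) = s.im := by
  have h1 := Mg_pos hs h0
  have h2 := N_Nl h0
  exact ord_eq h0 (by omega) le_rfl

/-- the indices of the zeros in `(T, 2T]` -/
def In (T : ℝ) : Finset ℕ := Finset.Ioc (N 0 T) (N 0 (2 * T))

lemma ord_mem {T : ℝ} (hT : 0 ≤ T) {n : ℕ} (hn : n ∈ In T) : T < ord n ∧ ord n ≤ 2 * T := by
  unfold In at hn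
  rw [Finset.mem_Ioc] at hn
  obtain ⟨s, hs, h1, h2⟩ := exists_level hT (by linarith) hn.1 hn.2
  rw [mem_Zf] at hs
  rw [ord_eq (by linarith [hs.2.2.2.1]) h1 h2]
  exact ⟨hs.2.2.2.1, hs.2.2.2.2⟩

lemma ord_mono {T : ℝ} (hT : 0 ≤ T) {n m : ℕ} (hn : n ∈ In T) (hm : m ∈ In T) (h : n ≤ m) : ord n ≤ ord m := by
  unfold In at hn hm
  rw [Finset.mem_Ioc] at hn hm
  obtain ⟨s, hs, h1, h2⟩ := exists_level hT (by linarith) hn.1 hn.2
  obtain ⟨u, hu, h3, h4⟩ := exists_level hT (by linarith) hm.1 hm.2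
  rw [mem_Zf] at hs hu
  rw [ord_eq (by linarith [hs.2.2.2.1]) h1 h2, ord_eq (by linarith [hu.2.2.2.1]) h3 h4]
  by_contra hcon
  have := N_le_Nl (by linarith [hu.2.2.2.1] : 0 ≤ u.im) (not_le.1 hcon)
  omega

open Classical in
/-- sums over indices -/
lemma sum_ord {T : ℝ} (hT : 1 ≤ T) (A : Set ℕ) (f : ℝ → ℝ) :
    ∑ n ∈ (In T).filter (· ∈ A), f (ord n) = ∑ s ∈ H370.Zf riemannZeta T (2 * T), oA A s * f s.im := by
  rw [Zf_eq hT]
  set Z := Pool.Agent.Q32.Idx.Zf T (2 * T) with hZ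
  have hmaps : ∀ s ∈ Z, s.im ∈ Z.image (fun s => s.im) := fun s hs => Finset.mem_image_of_mem _ hs
  have hmaps2 : ∀ n ∈ (In T).filter (· ∈ A), ord n ∈ Z.image (fun s => s.im) := by
    intro n hn
    rw [Finset.mem_filter] at hn
    unfold In at hn
    rw [Finset.mem_Ioc] at hn
    obtain ⟨s, hs, h1, h2⟩ := exists_level (by linarith : 0 ≤ T) (by linarith) hn.1.1 hn.1.2
    rw [ord_eq (by rw [mem_Zf] at hs; linarith [hs.2.2.2.1]) h1 h2]
    exact hmaps s hs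
  rw [← Finset.sum_fiberwise_of_maps_to hmaps2, ← Finset.sum_fiberwise_of_maps_to hmaps]
  refine Finset.sum_congr rfl fun g hg => ?_
  obtain ⟨s₀, hs₀, rfl⟩ := Finset.mem_image.1 hg
  rw [mem_Zf] at hs₀
  have hg0 : 0 < s₀.im := by linarith [hs₀.2.2.2.1]
  have h1 : Z.filter (fun s => s.im = s₀.im) = lev s₀.im := by
    ext u
    rw [Finset.mem_filter, mem_lev, mem_Zf]
    constructor
    · rintro ⟨⟨a1, a2, a3, a4, a5⟩, a6⟩
      exact ⟨a1, a2, a3, a6⟩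
    · rintro ⟨a1, a2, a3, a6⟩
      exact ⟨⟨a1, a2, a3, by rw [a6]; exact hs₀.2.2.2.1, by rw [a6]; exact hs₀.2.2.2.2⟩, a6⟩
  rw [h1]
  have h2 : ∑ s ∈ lev s₀.im, oA A s * f s.im = (al A s₀.im : ℝ) * f s₀.im := by
    rw [← oA_lev, Finset.sum_mul]
    exact Finset.sum_congr rfl fun s hs => by rw [(mem_lev.1 hs).2.2.2]
  rw [h2]
  have h3 : ((In T).filter (· ∈ A)).filter (fun n => ord n = s₀.im) = (Finset.Ioc (Nl s₀.im) (Nl s₀.im + Mg s₀.im)).filter (· ∈ A) := by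
    ext n
    rw [Finset.mem_filter, Finset.mem_filter, Finset.mem_filter, Finset.mem_Ioc, ← N_Nl hg0]
    constructor
    · rintro ⟨⟨h4, h5⟩, h6⟩
      refine ⟨?_, h5⟩
      unfold In at h4
      rw [Finset.mem_Ioc] at h4
      obtain ⟨s, hs, h7, h8⟩ := exists_level (by linarith : 0 ≤ T) (by linarith) h4.1 h4.2
      rw [ord_eq (by rw [mem_Zf] at hs; linarith [hs.2.2.2.1]) h7 h8] at h6
      rw [← h6]
      exact ⟨h7, h8⟩
    · rintro ⟨⟨h4, h5⟩, h6⟩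
      refine ⟨⟨?_, h6⟩, ord_eq hg0 h4 h5⟩
      unfold In
      rw [Finset.mem_Ioc]
      exact ⟨lt_of_le_of_lt (N_le_Nl (by linarith) hs₀.2.2.2.1) h4, h5.trans (N_mono hg0.le hs₀.2.2.2.2)⟩
  have h4 : ∑ n ∈ ((In T).filter (· ∈ A)).filter (fun n => ord n = s₀.im), f (ord n) =
      ∑ n ∈ ((In T).filter (· ∈ A)).filter (fun n => ord n = s₀.im), f s₀.im :=
    Finset.sum_congr rfl fun n hn => by rw [(Finset.mem_filter.1 hn).2]
  rw [h4, Finset.sum_const, nsmul_eq_mul, h3]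
  congr 1

/-- the good indices: those of isolated simple zeros -/
def gdi (d T : ℝ) : Set ℕ := {n | ∃ s ∈ ZI d T, N 0 s.im = n}

lemma ZI_facts {d T : ℝ} (hT : 1 ≤ T) {s : ℂ} (hs : s ∈ ZI d T) :
    (riemannZeta s = 0 ∧ 0 < s.re ∧ s.re < 1) ∧ s.re = 1 / 2 ∧ mz s = 1 ∧ T < s.im ∧ s.im ≤ 2 * T := by
  classical
  unfold ZI at hs
  rw [Finset.mem_filter, H370.mem_Zf H370.good_zeta hT] at hs
  exact ⟨⟨hs.1.2.2.2.2, hs.1.1, hs.1.2.1⟩, hs.2.1, hs.2.2.1, hs.1.2.2.1, hs.1.2.2.2.1⟩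

lemma gdi_In {d T : ℝ} (hT : 1 ≤ T) {s : ℂ} (hs : s ∈ ZI d T) : N 0 s.im ∈ In T := by
  obtain ⟨h1, -, -, h4, h5⟩ := ZI_facts hT hs
  have h6 := Mg_pos h1 (by linarith)
  have h7 := N_Nl (g := s.im) (by linarith)
  have h8 := N_le_Nl (by linarith : 0 ≤ T) h4
  have h9 := N_mono (by linarith : 0 ≤ s.im) h5
  unfold In
  rw [Finset.mem_Ioc]
  constructor <;> omega

open Classical in
/-- sums over good indices -/
lemma sum_good {d T : ℝ} (hT : 1 ≤ T) (A : Set ℕ) (f : ℝ → ℝ) :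
    ∑ n ∈ (In T).filter (fun n => n ∈ A ∧ n ∈ gdi d T), f (ord n) = ∑ s ∈ ZA A d T, f s.im := by
  symm
  refine Finset.sum_bij (fun s _ => N 0 s.im) ?_ ?_ ?_ ?_
  · intro s hs
    unfold ZA at hs
    rw [Finset.mem_filter] at hs
    exact Finset.mem_filter.2 ⟨gdi_In hT hs.1, hs.2, s, hs.1, rfl⟩
  · intro s hs u hu h
    unfold ZA at hs hu
    rw [Finset.mem_filter] at hs hu
    obtain ⟨a1, a2, -, a4, -⟩ := ZI_facts hT hs.1
    obtain ⟨b1, b2, -, b4, -⟩ := ZI_facts hT hu.1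
    have h1 := ord_N a1 (by linarith)
    have h2 := ord_N b1 (by linarith)
    rw [h, h2] at h1
    exact Complex.ext (a2.trans b2.symm) h1.symm
  · intro n hn
    rw [Finset.mem_filter] at hn
    obtain ⟨-, hnA, s, hs, rfl⟩ := hn
    exact ⟨s, Finset.mem_filter.2 ⟨hs, hnA⟩, rfl⟩
  · intro s hs
    unfold ZA at hs
    rw [Finset.mem_filter] at hs
    obtain ⟨a1, -, -, a4, -⟩ := ZI_facts hT hs.1
    rw [ord_N a1 (by linarith)]

lemma oA_univ (s : ℂ) (hs : riemannZeta s = 0 ∧ 0 < s.re ∧ s.re < 1) (h0 : 0 < s.im) : oA Set.univ s = mz s := by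
  unfold oA
  have h1 := Mg_pos hs h0
  have h2 : al Set.univ s.im = Mg s.im := by
    unfold al Pool.Agent.Q32.Idx.cnt
    simp
  rw [h2]
  have h3 : (0 : ℝ) < Mg s.im := by exact_mod_cast (by omega : 0 < Mg s.im)
  field_simp

open Classical in
/-- sums over all indices -/
lemma sum_all {T : ℝ} (hT : 1 ≤ T) (f : ℝ → ℝ) :
    ∑ n ∈ In T, f (ord n) = ∑ s ∈ H370.Zf riemannZeta T (2 * T), (mz s : ℝ) * f s.im := by
  have h := sum_ord hT Set.univ f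
  simp only [Set.mem_univ, Finset.filter_true] at h
  rw [h]
  refine Finset.sum_congr rfl fun s hs => ?_
  rw [H370.mem_Zf H370.good_zeta hT] at hs
  rw [oA_univ s ⟨hs.2.2.2.2, hs.1, hs.2.1⟩ (by linarith [hs.2.2.1])]

open Pool.Agent.H4.UZ in
open Classical in
/-- indices and multiplicities -/
lemma card_E {T : ℝ} (hT : 1 ≤ T) (E : Set ℝ) : (((In T).filter (fun n => ord n ∈ E)).card : ℝ) = NE T (2 * T) E := by
  have h := sum_all hT (fun x => if x ∈ E then (1 : ℝ) else 0)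
  rw [← Finset.sum_filter, Finset.sum_const, nsmul_eq_mul, mul_one] at h
  rw [h]
  unfold NE
  rw [Finset.sum_filter]
  refine Finset.sum_congr rfl fun s _ => ?_
  split_ifs
  · rw [mul_one]; rfl
  · rw [mul_zero]

lemma card_In {T : ℝ} (hT : 1 ≤ T) : ((In T).card : ℝ) = H370.NN riemannZeta T (2 * T) := by
  rw [Pool.Agent.H4.LD.NN_sum hT]
  have h := sum_all hT (fun _ => (1 : ℝ))
  simp only [mul_one, Finset.sum_const, nsmul_eq_mul] at h
  exact h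

end

end Pool.Agent.H4.IX
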