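import Pool.Agent.H4.IX.Evi

set_option autoImplicit false

/-! Runs of good zeros whose first index lies in a set with large gaps. -/

open Filter Topology MeasureTheory Complex

namespace Pool.Agent.H4.IX

open Pool.Agent.Q97.UM Pool.Agent.H4.UZ Pool.Agent.H4.LD
open Pool.Agent.Q32.Idx (NoCons N N_split mem_Zf)
open H370 (NN cMTinv)

noncomputable section

/-- no two members have distance at most `k` -/
def Gap (k : ℕ) (I : Set ℕ) : Prop := ∀ n ∈ I, ∀ j, 1 ≤ j → j ≤ k → n + j ∉ I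

lemma Gap.eq {k : ℕ} {I : Set ℕ} (h : Gap k I) {n m : ℕ} (hn : n ∈ I) (hm : m ∈ I) (h1 : n ≤ m + k) (h2 : m ≤ n + k) : n = m := by
  rcases lt_trichotomy n m with h3 | h3 | h3
  · have := h n hn (m - n) (by omega) (by omega)
    rw [Nat.add_sub_cancel' h3.le] at this
    exact absurd hm this
  · exact h3
  · have := h m hm (n - m) (by omega) (by omega)
    rw [Nat.add_sub_cancel' h3.le] at this
    exact absurd hn this

/-- the starting points of the runs of `k` good indices -/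
def run (k : ℕ) (d T : ℝ) : Set ℕ := {n | ∀ j < k, n + j ∈ gdi d T}

/-- the first bad indices -/
def fb (k : ℕ) (d T : ℝ) (I : Set ℕ) : Set ℕ :=
  {m | ∃ n ∈ I, ∃ j < k, m = n + j ∧ m ∉ gdi d T ∧ ∀ i < j, n + i ∈ gdi d T}

lemma fb_noCons {k : ℕ} {d T : ℝ} {I : Set ℕ} (hI : Gap k I) : NoCons (fb k d T I) := by
  rintro m ⟨n, hn, j, hj, rfl, h1, h2⟩ ⟨n', hn', j', hj', h3, h4, h5⟩
  have e : n = n' := hI.eq hn hn' (by omega) (by omega)
  subst e
  have : j' = j + 1 := by omega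
  subst this
  exact h1 (h5 j (by omega))

lemma NN_ge (C : ℝ) : ∀ᶠ T : ℝ in atTop, C ≤ NN riemannZeta T (2 * T) := by
  have h1 : ∀ᶠ T : ℝ in atTop, 4 * Real.pi * |C| ≤ T := eventually_ge_atTop _
  have h2 : ∀ᶠ T : ℝ in atTop, 1 ≤ Real.log T := Real.tendsto_log_atTop.eventually_ge_atTop _
  filter_upwards [NN_A (show (0 : ℝ) < 1 / 2 by norm_num), h1, h2, eventually_ge_atTop (3 : ℝ)] with T g1 g2 g3 hT
  have hpi := Real.pi_pos
  rw [abs_le] at g1
  have h3 : T / (2 * Real.pi) ≤ AA T := by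
    unfold AA
    rw [div_mul_eq_mul_div]
    gcongr
    nlinarith
  have h4 : |C| ≤ 1 / 2 * (T / (2 * Real.pi)) := by
    rw [← mul_div_assoc, le_div_iff₀ (by positivity)]
    linarith
  have h5 := le_abs_self C
  linarith [g1.1]

variable {S : ℝ → Set ℝ}

open Classical in
/-- **runs**: all the good runs, uniformly for all sets of starting indices with gaps `> k` -/
theorem run_ev (hS : Apx S) (hW : Apw S) {x z : ℝ} (hxz : x < z) (k : ℕ) {ε : ℝ} (hε : 0 < ε) :
    ∃ d : ℝ, 0 < d ∧ d ≤ 1 ∧ ∀ᶠ T : ℝ in atTop, ∀ I : Set ℕ, Gap k I →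
      (((In T).filter (fun n => n ∈ I ∧ ord n ∈ S x)).card : ℝ) ≤
        (((In T).filter (fun n => n ∈ I ∧ ord n ∈ S x ∧ n ∈ run k d T)).card : ℝ) +
          ((cMTinv - 1) / 2 * ld (S z) + ε) * NN riemannZeta T (2 * T) := by
  obtain ⟨y, hxy, hyz⟩ := exists_between hxz
  obtain ⟨d, hd0, hd1, hd⟩ := bad_ev hS hW hyz (show 0 < ε / 3 by positivity)
  refine ⟨d, hd0, hd1, ?_⟩
  have hst : ∀ᶠ T : ℝ in atTop, ∀ j ∈ Finset.range k,
      (((In T).filter (fun n => n + j ∈ In T ∧ ord n ∈ S x ∧ ord (n + j) ∉ S y)).card : ℝ) ≤ ε / (3 * (k + 1)) * NN riemannZeta T (2 * T) := by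
    rw [Filter.eventually_all_finset]
    intro j _
    filter_upwards [stab hW hxy j (show 0 < ε / (3 * (k + 1)) by positivity)] with T h
    exact h.1
  filter_upwards [hd, hst, NN_ge (3 / ε)] with T g1 g2 g3 I hI
  have hn0 : (0 : ℝ) ≤ NN riemannZeta T (2 * T) := Nat.cast_nonneg _
  have hone : 1 ≤ ε / 3 * NN riemannZeta T (2 * T) := by
    rw [div_le_iff₀ hε] at g3
    linarith
  have hA := g1 (fb k d T I) (fb_noCons hI)
  -- the killed starting points
  set K := (In T).filter (fun n => n ∈ I ∧ ord n ∈ S x ∧ n ∉ run k d T) with hK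
  have hsplit : ((In T).filter (fun n => n ∈ I ∧ ord n ∈ S x)).card =
      ((In T).filter (fun n => n ∈ I ∧ ord n ∈ S x ∧ n ∈ run k d T)).card + K.card := by
    rw [hK, ← Finset.card_filter_add_card_filter_not (s := (In T).filter (fun n => n ∈ I ∧ ord n ∈ S x)) (fun n => n ∈ run k d T),
      Finset.filter_filter, Finset.filter_filter]
    simp only [and_assoc]
  have hex : ∀ n, n ∉ run k d T → ∃ j, j < k ∧ n + j ∉ gdi d T ∧ ∀ i < j, n + i ∈ gdi d T := by
    intro n hn
    have h1 : ∃ j, j < k ∧ n + j ∉ gdi d T := by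
      unfold run at hn
      simp only [Set.mem_ofPred_eq] at hn
      push Not at hn
      exact hn
    refine ⟨Nat.find h1, (Nat.find_spec h1).1, (Nat.find_spec h1).2, fun i hi => ?_⟩
    have h2 := Nat.find_min h1 hi
    by_contra h3
    exact h2 ⟨hi.trans (Nat.find_spec h1).1, h3⟩
  choose! j hj1 hj2 hj3 using hex
  set K1 := K.filter (fun n => n + j n ∉ In T) with hK1
  set K3 := K.filter (fun n => n + j n ∈ In T ∧ ord (n + j n) ∈ S y) with hK3
  have hKmem : ∀ n ∈ K, n ∈ In T ∧ n ∈ I ∧ ord n ∈ S x ∧ n ∉ run k d T := fun n hn => by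
    rw [hK, Finset.mem_filter] at hn
    exact hn
  have hKs : K ⊆ K1 ∪ ((Finset.range k).biUnion (fun j => (In T).filter (fun n => n + j ∈ In T ∧ ord n ∈ S x ∧ ord (n + j) ∉ S y)) ∪ K3) := by
    intro n hn
    have hm := hKmem n hn
    simp only [Finset.mem_union, Finset.mem_biUnion, hK1, hK3, Finset.mem_filter, Finset.mem_range]
    by_cases h1 : n + j n ∈ In T
    · by_cases h2 : ord (n + j n) ∈ S y
      · exact Or.inr (Or.inr ⟨hn, h1, h2⟩)
      · exact Or.inr (Or.inl ⟨j n, hj1 n hm.2.2.2, hm.1, h1, hm.2.2.1, h2⟩)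
    · exact Or.inl ⟨hn, h1⟩
  have hc1 : K1.card ≤ 1 := by
    rw [Finset.card_le_one]
    intro n hn m hm
    rw [hK1, Finset.mem_filter] at hn hm
    have hn' := hKmem n hn.1
    have hm' := hKmem m hm.1
    have a1 := hj1 n hn'.2.2.2
    have a2 := hj1 m hm'.2.2.2
    have b1 := hn'.1
    have b2 := hm'.1
    have c1 := hn.2
    have c2 := hm.2
    unfold In at b1 b2 c1 c2
    rw [Finset.mem_Ioc] at b1 b2 c1 c2
    exact hI.eq hn'.2.1 hm'.2.1 (by omega) (by omega)
  have hc3 : K3.card ≤ ((In T).filter (fun n => n ∈ fb k d T I ∧ n ∉ gdi d T ∧ ord n ∈ S y)).card := by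
    refine Finset.card_le_card_of_injOn (fun n => n + j n) ?_ ?_
    · intro n hn
      have hn := Finset.mem_filter.1 (Finset.mem_coe.1 hn)
      have hn' := hKmem n hn.1
      refine Finset.mem_coe.2 (Finset.mem_filter.2 ⟨hn.2.1, ?_, hj2 n hn'.2.2.2, hn.2.2⟩)
      exact ⟨n, hn'.2.1, j n, hj1 n hn'.2.2.2, rfl, hj2 n hn'.2.2.2, hj3 n hn'.2.2.2⟩
    · intro n hn m hm h
      have hn := Finset.mem_filter.1 (Finset.mem_coe.1 hn)
      have hm := Finset.mem_filter.1 (Finset.mem_coe.1 hm)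
      have hn' := hKmem n hn.1
      have hm' := hKmem m hm.1
      have a1 := hj1 n hn'.2.2.2
      have a2 := hj1 m hm'.2.2.2
      simp only at h
      exact hI.eq hn'.2.1 hm'.2.1 (by omega) (by omega)
  have hc2 : ((((Finset.range k).biUnion (fun j => (In T).filter (fun n => n + j ∈ In T ∧ ord n ∈ S x ∧ ord (n + j) ∉ S y))).card : ℕ) : ℝ) ≤
      ε / 3 * NN riemannZeta T (2 * T) := by
    have h1 : (((Finset.range k).biUnion (fun j => (In T).filter (fun n => n + j ∈ In T ∧ ord n ∈ S x ∧ ord (n + j) ∉ S y))).card) ≤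
        ∑ j ∈ Finset.range k, ((In T).filter (fun n => n + j ∈ In T ∧ ord n ∈ S x ∧ ord (n + j) ∉ S y)).card := Finset.card_biUnion_le
    have h2 : ((((Finset.range k).biUnion (fun j => (In T).filter (fun n => n + j ∈ In T ∧ ord n ∈ S x ∧ ord (n + j) ∉ S y))).card : ℕ) : ℝ) ≤
        ∑ j ∈ Finset.range k, (((In T).filter (fun n => n + j ∈ In T ∧ ord n ∈ S x ∧ ord (n + j) ∉ S y)).card : ℝ) := by exact_mod_cast h1
    refine h2.trans ((Finset.sum_le_card_nsmul _ _ _ g2).trans ?_)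
    rw [Finset.card_range, nsmul_eq_mul]
    have h3 : (k : ℝ) * (ε / (3 * (k + 1))) ≤ ε / 3 := by
      rw [mul_div_assoc', div_le_div_iff₀ (by positivity) (by positivity)]
      nlinarith
    calc (k : ℝ) * (ε / (3 * (k + 1)) * NN riemannZeta T (2 * T)) = (k : ℝ) * (ε / (3 * (k + 1))) * NN riemannZeta T (2 * T) := by ring
      _ ≤ ε / 3 * NN riemannZeta T (2 * T) := mul_le_mul_of_nonneg_right h3 hn0
  have hKc : (K.card : ℝ) ≤ ε / 3 * NN riemannZeta T (2 * T) + (ε / 3 * NN riemannZeta T (2 * T) +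
      ((cMTinv - 1) / 2 * ld (S z) + ε / 3) * NN riemannZeta T (2 * T)) := by
    have h1 := (Finset.card_le_card hKs).trans ((Finset.card_union_le _ _).trans
      (Nat.add_le_add_left (Finset.card_union_le _ _) _))
    have h2 : (K.card : ℝ) ≤ K1.card +
        (((((Finset.range k).biUnion (fun j => (In T).filter (fun n => n + j ∈ In T ∧ ord n ∈ S x ∧ ord (n + j) ∉ S y))).card : ℕ) : ℝ) + K3.card) := by
      exact_mod_cast h1
    have h3 : (K1.card : ℝ) ≤ 1 := by exact_mod_cast hc1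
    have h4 : (K3.card : ℝ) ≤ ((cMTinv - 1) / 2 * ld (S z) + ε / 3) * NN riemannZeta T (2 * T) := by
      refine le_trans ?_ hA
      exact_mod_cast hc3
    linarith
  rw [hsplit]
  push_cast
  nlinarith

/-- uniform lower density at least `α` -/
def UD (α : ℝ) (I : Set ℕ) : Prop := ∀ ε : ℝ, 0 < ε → ∃ L : ℕ, 0 < L ∧ ∀ m : ℕ, (α - ε) * L ≤ ((Set.Ioc m (m + L) ∩ I).ncard : ℝ)

lemma ncard_shift (m L : ℕ) (I : Set ℕ) [DecidablePred (· ∈ I)] :
    (Set.Ioc m (m + L) ∩ I).ncard = ((Finset.range L).filter (fun j => m + (j + 1) ∈ I)).card := by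
  have : Set.Ioc m (m + L) ∩ I = (((Finset.range L).filter (fun j => m + (j + 1) ∈ I)).image (fun j => m + (j + 1)) : Finset ℕ) := by
    ext n
    simp only [Set.mem_inter_iff, Set.mem_Ioc, Finset.coe_image, Finset.coe_filter, Finset.mem_range, Set.mem_image, Set.mem_ofPred_eq]
    constructor
    · rintro ⟨⟨h1, h2⟩, h3⟩
      refine ⟨n - m - 1, ⟨by omega, ?_⟩, by omega⟩
      rwa [show m + (n - m - 1 + 1) = n by omega]
    · rintro ⟨j, ⟨h1, h2⟩, rfl⟩
      exact ⟨⟨by omega, by omega⟩, h2⟩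
  rw [this, Set.ncard_coe_finset, Finset.card_image_of_injective]
  intro a b h
  simpa using h

open Classical in
/-- the indices of a set of uniform density in the events -/
theorem uni_ev (hW : Apw S) {α : ℝ} {I : Set ℕ} (hI : UD α I) {x y : ℝ} (hxy : x < y)
    {ε : ℝ} (hε : 0 < ε) : ∀ᶠ T : ℝ in atTop,
      α * (((In T).filter (fun n => ord n ∈ S x)).card : ℝ) - ε * NN riemannZeta T (2 * T) ≤
        (((In T).filter (fun n => n ∈ I ∧ ord n ∈ S y)).card : ℝ) := by
  obtain ⟨L, hL0, hL⟩ := hI (ε / 3) (by positivity)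
  have hst : ∀ᶠ T : ℝ in atTop, ∀ j ∈ Finset.range L,
      (((In T).filter (fun n => n + (j + 1) ∈ In T ∧ ord n ∈ S x ∧ ord (n + (j + 1)) ∉ S y)).card : ℝ) ≤ ε / 3 * NN riemannZeta T (2 * T) := by
    rw [Filter.eventually_all_finset]
    intro j _
    filter_upwards [stab hW hxy (j + 1) (show 0 < ε / 3 by positivity)] with T h
    exact h.1
  filter_upwards [hst, NN_ge (3 * L * |α| / ε), eventually_ge_atTop (3 : ℝ)] with T g2 g3 hT
  set n : ℝ := ((NN riemannZeta T (2 * T) : ℕ) : ℝ) with hn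
  have hn0 : (0 : ℝ) ≤ n := Nat.cast_nonneg _
  have hLr : (0 : ℝ) < L := by exact_mod_cast hL0
  set a := N 0 T with ha
  set b := N 0 (2 * T) with hb
  have hIn : ∀ n, n ∈ In T ↔ a < n ∧ n ≤ b := by
    intro n
    unfold In
    rw [Finset.mem_Ioc, ha, hb]
  set X := ((In T).filter (fun n => n ∈ I ∧ ord n ∈ S y)).card with hX
  set Q := (In T).filter (fun n => ord n ∈ S x) with hQ
  set Q' := Q.filter (fun n => n + L ≤ b) with hQ'
  -- double counting
  have h1 : ∀ j ∈ Finset.range L, (((Q'.filter (fun n => n + (j + 1) ∈ I)).card : ℕ) : ℝ) ≤ X + ε / 3 * n := by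
    intro j hj
    have hjL := Finset.mem_range.1 hj
    have h2 : (Q'.filter (fun n => n + (j + 1) ∈ I)) ⊆
        ((In T).filter (fun n => n + (j + 1) ∈ In T ∧ ord n ∈ S x ∧ ord (n + (j + 1)) ∉ S y)) ∪
        ((In T).filter (fun n => n + (j + 1) ∈ In T ∧ (n + (j + 1) ∈ I ∧ ord (n + (j + 1)) ∈ S y))) := by
      intro m hm
      rw [Finset.mem_filter, hQ', Finset.mem_filter, hQ, Finset.mem_filter] at hm
      obtain ⟨⟨⟨h3, h4⟩, h5⟩, h6⟩ := hm
      have h7 : m + (j + 1) ∈ In T := by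
        rw [hIn] at h3 ⊢
        omega
      rw [Finset.mem_union, Finset.mem_filter, Finset.mem_filter]
      by_cases h8 : ord (m + (j + 1)) ∈ S y
      · exact Or.inr ⟨h3, h7, h6, h8⟩
      · exact Or.inl ⟨h3, h7, h4, h8⟩
    have h3 : ((In T).filter (fun n => n + (j + 1) ∈ In T ∧ (n + (j + 1) ∈ I ∧ ord (n + (j + 1)) ∈ S y))).card ≤ X := by
      refine Finset.card_le_card_of_injOn (fun n => n + (j + 1)) ?_ ?_
      · intro n hn
        have hn := Finset.mem_filter.1 (Finset.mem_coe.1 hn)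
        exact Finset.mem_coe.2 (Finset.mem_filter.2 ⟨hn.2.1, hn.2.2⟩)
      · intro n _ m _ h
        simpa using h
    have h4 := (Finset.card_le_card h2).trans (Finset.card_union_le _ _)
    have h5 := g2 j hj
    have h6 : (((Q'.filter (fun n => n + (j + 1) ∈ I)).card : ℕ) : ℝ) ≤
        (((In T).filter (fun n => n + (j + 1) ∈ In T ∧ ord n ∈ S x ∧ ord (n + (j + 1)) ∉ S y)).card : ℝ) + X := by
      exact_mod_cast h4.trans (Nat.add_le_add_left h3 _)
    linarith
  have h2 : ∑ j ∈ Finset.range L, (((Q'.filter (fun n => n + (j + 1) ∈ I)).card : ℕ) : ℝ) ≤ L * (X + ε / 3 * n) := by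
    have := Finset.sum_le_card_nsmul _ _ _ h1
    rwa [Finset.card_range, nsmul_eq_mul] at this
  have h3 : ∑ j ∈ Finset.range L, (((Q'.filter (fun n => n + (j + 1) ∈ I)).card : ℕ) : ℝ) =
      ∑ m ∈ Q', ((Set.Ioc m (m + L) ∩ I).ncard : ℝ) := by
    have h4 : ∀ m ∈ Q', ((Set.Ioc m (m + L) ∩ I).ncard : ℝ) = ∑ j ∈ Finset.range L, if m + (j + 1) ∈ I then (1 : ℝ) else 0 := by
      intro m _
      rw [ncard_shift, Finset.card_filter]
      push_cast
      rfl
    rw [Finset.sum_congr rfl h4, Finset.sum_comm]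
    refine Finset.sum_congr rfl fun j _ => ?_
    rw [Finset.card_filter]
    push_cast
    rfl
  have h4 : (Q'.card : ℝ) * ((α - ε / 3) * L) ≤ ∑ m ∈ Q', ((Set.Ioc m (m + L) ∩ I).ncard : ℝ) := by
    rw [← nsmul_eq_mul]
    exact Finset.card_nsmul_le_sum _ _ _ fun m _ => hL m
  have h5 : (Q'.card : ℝ) * (α - ε / 3) ≤ X + ε / 3 * n := by
    have : L * ((Q'.card : ℝ) * (α - ε / 3)) ≤ L * (X + ε / 3 * n) := by nlinarith
    exact le_of_mul_le_mul_left this hLr
  have h6 : Q.card ≤ Q'.card + L := by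
    have h7 : Q.filter (fun n => ¬ n + L ≤ b) ⊆ Finset.Ioc (b - L) b := by
      intro m hm
      rw [Finset.mem_filter, hQ, Finset.mem_filter, hIn] at hm
      rw [Finset.mem_Ioc]
      omega
    have h8 := Finset.card_le_card h7
    rw [Nat.card_Ioc] at h8
    have h9 := Finset.card_filter_add_card_filter_not (s := Q) (fun n => n + L ≤ b)
    rw [← hQ'] at h9
    omega
  have h6' : (Q.card : ℝ) ≤ Q'.card + L := by exact_mod_cast h6
  have h7 : (Q'.card : ℝ) ≤ Q.card := by exact_mod_cast Finset.card_le_card (Finset.filter_subset _ _)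
  have h8 : (Q.card : ℝ) ≤ n := by
    rw [hn, ← card_In (by linarith)]
    exact_mod_cast Finset.card_le_card (Finset.filter_subset _ _)
  have h9 : L * |α| ≤ ε / 3 * n := by
    rw [div_le_iff₀ hε] at g3
    linarith
  have h10 : α * (Q.card : ℝ) ≤ α * Q'.card + L * |α| := by
    have h11 : α * ((Q.card : ℝ) - Q'.card) ≤ |α| * L := by
      refine (mul_le_mul_of_nonneg_right (le_abs_self α) (by linarith)).trans (mul_le_mul_of_nonneg_left (by linarith) (abs_nonneg _))
    linarith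
  nlinarith

end

end Pool.Agent.H4.IX
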