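import Pool.Agent.H4.IX.Run

set_option autoImplicit false

/-! Runs of good zeros in events, at the points of continuity of the law. -/

open Filter Topology MeasureTheory Complex

namespace Pool.Agent.H4.IX

open Pool.Agent.Q97.UM Pool.Agent.H4.UZ Pool.Agent.H4.LD
open Pool.Agent.Q32.Idx (NoCons N N_split mem_Zf)
open H370 (NN cMTinv)

noncomputable section

variable {S : ℝ → Set ℝ} {x : ℝ}

open Classical in
lemma all_law (hS : Apx S) (hc : ContinuousAt (fun y => ld (S y)) x) {ε : ℝ} (hε : 0 < ε) : ∀ᶠ T : ℝ in atTop,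
    (ld (S x) - ε) * NN riemannZeta T (2 * T) ≤ (((In T).filter (fun n => ord n ∈ S x)).card : ℝ) ∧
    (((In T).filter (fun n => ord n ∈ S x)).card : ℝ) ≤ (ld (S x) + ε) * NN riemannZeta T (2 * T) := by
  obtain ⟨y, z, hy, hz, h1, h2⟩ := near hc (half_pos hε)
  filter_upwards [(apx_all hS hy (half_pos hε)).2.2, (apx_all hS hz (half_pos hε)).2.1, eventually_ge_atTop (1 : ℝ)] with T g1 g2 hT
  have hn0 : (0 : ℝ) ≤ NN riemannZeta T (2 * T) := Nat.cast_nonneg _
  rw [card_E hT]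
  constructor
  · exact (mul_le_mul_of_nonneg_right (by linarith) hn0).trans g1
  · exact g2.trans (mul_le_mul_of_nonneg_right (by linarith) hn0)

open Classical in
/-- stability at points of continuity -/
lemma stab_c (hS : Apx S) (hW : Apw S) (hc : ContinuousAt (fun y => ld (S y)) x) (k : ℕ) {ε : ℝ} (hε : 0 < ε) : ∀ᶠ T : ℝ in atTop,
    (((In T).filter (fun n => n + k ∈ In T ∧ ord n ∈ S x ∧ ord (n + k) ∉ S x)).card : ℝ) ≤ ε * NN riemannZeta T (2 * T) := by
  obtain ⟨y, z, hy, hz, h1, h2⟩ := near hc (show 0 < ε / 6 by positivity)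
  obtain ⟨w, hyw, hwx⟩ := exists_between hy
  filter_upwards [(apx_all hS hyw (show 0 < ε / 6 by positivity)).2.2, (apx_all hS hz (show 0 < ε / 6 by positivity)).2.1,
    stab hW hwx k (show 0 < ε / 3 by positivity), eventually_ge_atTop (1 : ℝ)] with T g1 g2 g3 hT
  have hn0 : (0 : ℝ) ≤ NN riemannZeta T (2 * T) := Nat.cast_nonneg _
  rw [← card_E hT] at g1 g2
  have hsub : (In T).filter (fun n => n + k ∈ In T ∧ ord n ∈ S x ∧ ord (n + k) ∉ S x) ⊆
      (In T).filter (fun n => n + k ∈ In T ∧ ord n ∈ S w ∧ ord (n + k) ∉ S x) ∪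
        ((In T).filter (fun n => ord n ∈ S x) \ (In T).filter (fun n => ord n ∈ S w)) := by
    intro n hn
    rw [Finset.mem_filter] at hn
    simp only [Finset.mem_union, Finset.mem_filter, Finset.mem_sdiff]
    by_cases h : ord n ∈ S w
    · exact Or.inl ⟨hn.1, hn.2.1, h, hn.2.2.2⟩
    · exact Or.inr ⟨⟨hn.1, hn.2.2.1⟩, fun h' => h h'.2⟩
  have hc1 := (Finset.card_le_card hsub).trans (Finset.card_union_le _ _)
  have hws : (In T).filter (fun n => ord n ∈ S w) ⊆ (In T).filter (fun n => ord n ∈ S x) := by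
    intro n hn
    rw [Finset.mem_filter] at hn ⊢
    exact ⟨hn.1, hS.1 _ _ hwx.le hn.2⟩
  rw [Finset.card_sdiff_of_subset hws] at hc1
  have hle := Finset.card_le_card hws
  have hc2 : (((In T).filter (fun n => n + k ∈ In T ∧ ord n ∈ S x ∧ ord (n + k) ∉ S x)).card : ℝ) ≤
      (((In T).filter (fun n => n + k ∈ In T ∧ ord n ∈ S w ∧ ord (n + k) ∉ S x)).card : ℝ) +
        ((((In T).filter (fun n => ord n ∈ S x)).card : ℝ) - (((In T).filter (fun n => ord n ∈ S w)).card : ℝ)) := by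
    rw [← Nat.cast_sub hle]
    exact_mod_cast hc1
  have g3' := g3.1
  nlinarith

open Classical in
/-- the lower bound in index sets of positive uniform density -/
theorem uni_low (hS : Apx S) (hW : Apw S) (hc : ContinuousAt (fun y => ld (S y)) x) {α : ℝ} {I : Set ℕ} (hI : UD α I)
    {ε : ℝ} (hε : 0 < ε) : ∀ᶠ T : ℝ in atTop,
      (α * ld (S x) - ε) * NN riemannZeta T (2 * T) ≤ (((In T).filter (fun n => n ∈ I ∧ ord n ∈ S x)).card : ℝ) := by
  rcases le_or_gt α 0 with hα | hα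
  · refine Eventually.of_forall fun T => ?_
    have h0 := ld_nonneg (S x)
    have hn0 : (0 : ℝ) ≤ NN riemannZeta T (2 * T) := Nat.cast_nonneg _
    have h1 : (α * ld (S x) - ε) ≤ 0 := by nlinarith
    exact (mul_nonpos_of_nonpos_of_nonneg h1 hn0).trans (Nat.cast_nonneg _)
  obtain ⟨y, z, hy, hz, h1, h2⟩ := near hc (show 0 < ε / (3 * α) by positivity)
  obtain ⟨w, hyw, hwx⟩ := exists_between hy
  filter_upwards [(apx_all hS hyw (show 0 < ε / (3 * α) by positivity)).2.2, uni_ev hW hI hwx (show 0 < ε / 3 by positivity),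
    eventually_ge_atTop (1 : ℝ)] with T g1 g2 hT
  have hn0 : (0 : ℝ) ≤ NN riemannZeta T (2 * T) := Nat.cast_nonneg _
  rw [← card_E hT] at g1
  refine le_trans ?_ g2
  have h3 : α * ((ld (S y) - ε / (3 * α)) * NN riemannZeta T (2 * T)) ≤ α * (((In T).filter (fun n => ord n ∈ S w)).card : ℝ) :=
    mul_le_mul_of_nonneg_left g1 hα.le
  have h4 : α * (ld (S x) - ε / (3 * α)) ≤ α * ld (S y) := mul_le_mul_of_nonneg_left h1 hα.le
  have h5 : α * (ε / (3 * α)) = ε / 3 := by field_simp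
  rw [mul_sub, h5] at h4
  have h6 : (α * ld (S x) - ε / 3) * NN riemannZeta T (2 * T) ≤ α * ld (S y) * NN riemannZeta T (2 * T) :=
    mul_le_mul_of_nonneg_right h4 hn0
  have h7 : α * ((ld (S y) - ε / (3 * α)) * NN riemannZeta T (2 * T)) =
      α * ld (S y) * NN riemannZeta T (2 * T) - ε / 3 * NN riemannZeta T (2 * T) := by
    rw [← mul_assoc, mul_sub, h5]
    ring
  linarith

open Classical in
/-- **runs in events**, uniformly for all the index sets with gaps `> k` -/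
theorem runs_ev (hS : Apx S) (hW : Apw S) (hc : ContinuousAt (fun y => ld (S y)) x) (k : ℕ) {ε : ℝ} (hε : 0 < ε) :
    ∃ d : ℝ, 0 < d ∧ d ≤ 1 ∧ ∀ᶠ T : ℝ in atTop, ∀ I : Set ℕ, Gap k I →
      (((In T).filter (fun n => n ∈ I ∧ ord n ∈ S x)).card : ℝ) ≤
        (((In T).filter (fun n => n ∈ I ∧ ∀ j < k, n + j ∈ gdi d T ∧ ord (n + j) ∈ S x)).card : ℝ) +
          ((cMTinv - 1) / 2 * ld (S x) + ε) * NN riemannZeta T (2 * T) := by
  obtain ⟨y, z, hy, hz, h1, h2⟩ := near hc (show 0 < ε / 3 by positivity)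
  obtain ⟨d, hd0, hd1, hd⟩ := run_ev hS hW hz k (show 0 < ε / 3 by positivity)
  refine ⟨d, hd0, hd1, ?_⟩
  have hst : ∀ᶠ T : ℝ in atTop, ∀ j ∈ Finset.range k,
      (((In T).filter (fun n => n + j ∈ In T ∧ ord n ∈ S x ∧ ord (n + j) ∉ S x)).card : ℝ) ≤ ε / (3 * (k + 1)) * NN riemannZeta T (2 * T) := by
    rw [Filter.eventually_all_finset]
    intro j _
    exact stab_c hS hW hc j (by positivity)
  filter_upwards [hd, hst, eventually_ge_atTop (1 : ℝ)] with T g1 g2 hT I hI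
  have hn0 : (0 : ℝ) ≤ NN riemannZeta T (2 * T) := Nat.cast_nonneg _
  have g1 := g1 I hI
  have hsub : (In T).filter (fun n => n ∈ I ∧ ord n ∈ S x ∧ n ∈ run k d T) ⊆
      (In T).filter (fun n => n ∈ I ∧ ∀ j < k, n + j ∈ gdi d T ∧ ord (n + j) ∈ S x) ∪
        (Finset.range k).biUnion (fun j => (In T).filter (fun n => n + j ∈ In T ∧ ord n ∈ S x ∧ ord (n + j) ∉ S x)) := by
    intro n hn
    rw [Finset.mem_filter] at hn
    obtain ⟨h3, h4, h5, h6⟩ := hn
    simp only [Finset.mem_union, Finset.mem_filter, Finset.mem_biUnion, Finset.mem_range]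
    by_cases h : ∀ j < k, n + j ∈ gdi d T ∧ ord (n + j) ∈ S x
    · exact Or.inl ⟨h3, h4, h⟩
    · push Not at h
      obtain ⟨j, hj, h7⟩ := h
      have h8 := h6 j hj
      obtain ⟨s, hs, h9⟩ := h8
      refine Or.inr ⟨j, hj, h3, ?_, h5, h7 (h6 j hj)⟩
      rw [← h9]
      exact gdi_In hT hs
  have hc1 := (Finset.card_le_card hsub).trans ((Finset.card_union_le _ _).trans (Nat.add_le_add_left Finset.card_biUnion_le _))
  have hc2 : (((In T).filter (fun n => n ∈ I ∧ ord n ∈ S x ∧ n ∈ run k d T)).card : ℝ) ≤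
      (((In T).filter (fun n => n ∈ I ∧ ∀ j < k, n + j ∈ gdi d T ∧ ord (n + j) ∈ S x)).card : ℝ) +
        ∑ j ∈ Finset.range k, (((In T).filter (fun n => n + j ∈ In T ∧ ord n ∈ S x ∧ ord (n + j) ∉ S x)).card : ℝ) := by
    exact_mod_cast hc1
  have hc3 : ∑ j ∈ Finset.range k, (((In T).filter (fun n => n + j ∈ In T ∧ ord n ∈ S x ∧ ord (n + j) ∉ S x)).card : ℝ) ≤
      ε / 3 * NN riemannZeta T (2 * T) := by
    refine (Finset.sum_le_card_nsmul _ _ _ g2).trans ?_
    rw [Finset.card_range, nsmul_eq_mul]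
    have h3 : (k : ℝ) * (ε / (3 * (k + 1))) ≤ ε / 3 := by
      rw [mul_div_assoc', div_le_div_iff₀ (by positivity) (by positivity)]
      nlinarith
    calc (k : ℝ) * (ε / (3 * (k + 1)) * NN riemannZeta T (2 * T)) = (k : ℝ) * (ε / (3 * (k + 1))) * NN riemannZeta T (2 * T) := by ring
      _ ≤ ε / 3 * NN riemannZeta T (2 * T) := mul_le_mul_of_nonneg_right h3 hn0
  have hcc := H370.cMTinv_lt
  have hcc1 := H370.cMTinv_gt_one
  have h5 : (cMTinv - 1) / 2 * ld (S z) ≤ (cMTinv - 1) / 2 * ld (S x) + ε / 3 := by nlinarith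
  have h6 : (cMTinv - 1) / 2 * ld (S z) * NN riemannZeta T (2 * T) ≤
      ((cMTinv - 1) / 2 * ld (S x) + ε / 3) * NN riemannZeta T (2 * T) := mul_le_mul_of_nonneg_right h5 hn0
  nlinarith

lemma gap_mod {k q : ℕ} (hk : k < q) (a : ℕ) : Gap k {n | n % q = a} := by
  intro n hn j hj1 hj2 hnj
  simp only [Set.mem_ofPred_eq] at hn hnj
  have h1 : (n + j) % q = n % q := by rw [hn, hnj]
  have h2 : q ∣ j := by
    have := (Nat.modEq_iff_dvd' (show n ≤ n + j by omega)).1 (Eq.symm h1 : n ≡ n + j [MOD q])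
    rwa [Nat.add_sub_cancel_left] at this
  have h3 := Nat.le_of_dvd (by omega) h2
  omega

open Classical in
/-- all the starting points -/
theorem runs_all (hS : Apx S) (hW : Apw S) (hc : ContinuousAt (fun y => ld (S y)) x) (k : ℕ) {ε : ℝ} (hε : 0 < ε) :
    ∃ d : ℝ, 0 < d ∧ d ≤ 1 ∧ ∀ᶠ T : ℝ in atTop,
      ((1 - (k + 1) * ((cMTinv - 1) / 2)) * ld (S x) - ε) * NN riemannZeta T (2 * T) ≤
        (((In T).filter (fun n => ∀ j < k, n + j ∈ gdi d T ∧ ord (n + j) ∈ S x)).card : ℝ) := by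
  obtain ⟨d, hd0, hd1, hd⟩ := runs_ev hS hW hc k (show 0 < ε / (2 * (k + 1)) by positivity)
  refine ⟨d, hd0, hd1, ?_⟩
  filter_upwards [hd, all_law hS hc (half_pos hε)] with T g1 g2
  have hn0 : (0 : ℝ) ≤ NN riemannZeta T (2 * T) := Nat.cast_nonneg _
  have h1 : ∀ (P : ℕ → Prop), (((In T).filter P).card : ℝ) =
      ∑ a ∈ Finset.range (k + 1), (((In T).filter (fun n => n ∈ {n | n % (k + 1) = a} ∧ P n)).card : ℝ) := by
    intro P
    have h2 := Finset.card_eq_sum_card_fiberwise (s := (In T).filter P) (t := Finset.range (k + 1)) (f := fun n => n % (k + 1))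
      (fun n _ => Finset.mem_coe.2 (Finset.mem_range.2 (Nat.mod_lt n (by omega))))
    rw [h2]
    push_cast
    refine Finset.sum_congr rfl fun a _ => ?_
    rw [Finset.filter_filter]
    congr 2
    ext n
    simp only [Finset.mem_filter, Set.mem_ofPred_eq]
    tauto
  have e1 := h1 (fun n => ord n ∈ S x)
  have e2 : (((In T).filter (fun n => ∀ j < k, n + j ∈ gdi d T ∧ ord (n + j) ∈ S x)).card : ℝ) =
      ∑ a ∈ Finset.range (k + 1), (((In T).filter (fun n => n ∈ {n | n % (k + 1) = a} ∧ ∀ j < k, n + j ∈ gdi d T ∧ ord (n + j) ∈ S x)).card : ℝ) := by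
    have := h1 (fun n => ∀ j < k, n + j ∈ gdi d T ∧ ord (n + j) ∈ S x)
    convert this
  have h2 : (((In T).filter (fun n => ord n ∈ S x)).card : ℝ) ≤
      (((In T).filter (fun n => ∀ j < k, n + j ∈ gdi d T ∧ ord (n + j) ∈ S x)).card : ℝ) +
        ∑ a ∈ Finset.range (k + 1), ((cMTinv - 1) / 2 * ld (S x) + ε / (2 * (k + 1))) * NN riemannZeta T (2 * T) := by
    rw [e1, e2, ← Finset.sum_add_distrib]
    refine Finset.sum_le_sum fun a _ => ?_
    have h3 := g1 {n | n % (k + 1) = a} (gap_mod (by omega) a)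
    refine le_trans (le_of_eq ?_) (h3.trans (le_of_eq ?_)) <;> congr!
  rw [Finset.sum_const, Finset.card_range, nsmul_eq_mul] at h2
  push_cast at h2
  have h3 : ((k : ℝ) + 1) * (((cMTinv - 1) / 2 * ld (S x) + ε / (2 * (k + 1))) * NN riemannZeta T (2 * T)) =
      (k + 1) * ((cMTinv - 1) / 2) * ld (S x) * NN riemannZeta T (2 * T) + ε / 2 * NN riemannZeta T (2 * T) := by
    field_simp
  rw [h3] at h2
  have h4 := g2.1
  nlinarith

end

end Pool.Agent.H4.IX
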